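import Pool.Agent.Helper3.PR.Ub

/-! Forms on affine functions: the block of the space variables, values along lines. -/

set_option autoImplicit false

namespace Pool.Agent.Helper59.GR

open MvPolynomial Matrix Pool.Agent.Helper95.LF Pool.Agent.Helper3.LF Pool.Agent.Helper48.NS Pool.Agent.Helper89.LX

noncomputable section

variable {N m : ℕ}

/-- monomials of degree at most one -/
theorem mon_one (a : Mon N 1) : a.mon = 1 ∨ ∃ i, a.mon = X i := by
  by_cases h : ∀ i, (a.1 i : ℕ) = 0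
  · left
    unfold Mon.mon
    have h1 : a.ex = 0 := by
      ext i
      rw [Mon.ex_apply, h i]
      rfl
    rw [h1]
    rfl
  · right
    push Not at h
    obtain ⟨i, hi⟩ := h
    refine ⟨i, ?_⟩
    have h2 := a.2
    have h3 : ∑ j ∈ (Finset.univ : Finset (Fin N)).erase i, (a.1 j : ℕ) + (a.1 i : ℕ) = ∑ j, (a.1 j : ℕ) :=
      Finset.sum_erase_add _ _ (Finset.mem_univ i)
    have h4 : (a.1 i : ℕ) = 1 := by omega
    have h5 : ∑ j ∈ (Finset.univ : Finset (Fin N)).erase i, (a.1 j : ℕ) = 0 := by omega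
    have h6 : ∀ j, j ≠ i → (a.1 j : ℕ) = 0 := fun j hj =>
      Finset.sum_eq_zero_iff.mp h5 j (Finset.mem_erase.mpr ⟨hj, Finset.mem_univ j⟩)
    unfold Mon.mon
    have h1 : a.ex = Finsupp.single i 1 := by
      ext j
      rw [Mon.ex_apply]
      by_cases hj : j = i
      · rw [hj, h4, Finsupp.single_eq_same]
      · rw [h6 j hj, Finsupp.single_eq_of_ne hj]
    rw [h1]
    rfl

/-- derivatives of affine functions are constant -/
theorem dd_one (i : Fin N) (p p' : Fin N → ℝ) : (dd i p : Mon N 1 → ℝ) = dd i p' := by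
  funext a
  unfold dd
  rcases mon_one a with h | ⟨j, h⟩
  · rw [h, pderiv_one, map_zero, map_zero]
  · rw [h, pderiv_X]
    by_cases hj : j = i
    · subst hj
      rw [Pi.single_eq_same, map_one, map_one]
    · rw [Pi.single_eq_of_ne hj, map_zero, map_zero]

/-- affine functions -/
theorem vv_one (p y : Fin N → ℝ) : (vv y : Mon N 1 → ℝ) = vv p + ∑ i, (y i - p i) • dd i 0 := by
  funext a
  rw [Pi.add_apply, Finset.sum_apply]
  unfold vv dd
  rcases mon_one a with h | ⟨j, h⟩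
  · rw [h, map_one, map_one]
    have h1 : ∑ i, ((y i - p i) • fun a : Mon N 1 => eval 0 (pderiv i a.mon)) a = 0 := by
      apply Finset.sum_eq_zero
      intro i _
      rw [Pi.smul_apply, h, pderiv_one, map_zero, smul_zero]
    rw [h1, add_zero]
  · rw [h, eval_X, eval_X]
    have h1 : ∑ i, ((y i - p i) • fun a : Mon N 1 => eval 0 (pderiv i a.mon)) a = y j - p j := by
      rw [Finset.sum_eq_single j]
      · rw [Pi.smul_apply, h, pderiv_X_self, map_one, smul_eq_mul, mul_one]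
      · intro i _ hi
        rw [Pi.smul_apply, h, pderiv_X, Pi.single_eq_of_ne (Ne.symm hi), map_zero, smul_zero]
      · intro h'
        exact absurd (Finset.mem_univ j) h'
    rw [h1]
    ring

theorem Wd_one (p p' : Fin (m + 1) → ℝ) : Wd m 1 p = Wd m 1 p' := by
  ext a b
  exact congrFun (dd_one b.succ p p') a

/-- the Gram matrix of the gradients is the block of the space variables -/
theorem Jf_one (r : ℝ) (A : Matrix (Mon (m + 1) 1) (Mon (m + 1) 1) ℝ) (p : Fin (m + 1) → ℝ) (e : Fin m → ℝ) :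
    e ⬝ᵥ (Jf r A p *ᵥ e) = nn (m + 1) 1 * qf A (Wd m 1 0 *ᵥ e) := by
  rw [Jf_qf]
  have h1 : ∀ j : Fin (m + 1) → Fin (1 + 1), (Wd m 1 (nodp 1 p r j) *ᵥ e) ⬝ᵥ (A *ᵥ (Wd m 1 (nodp 1 p r j) *ᵥ e)) =
      qf A (Wd m 1 0 *ᵥ e) := fun j => by
    rw [Wd_one (nodp 1 p r j) 0]
    rfl
  rw [Finset.sum_congr rfl (fun j _ => h1 j), Finset.sum_const, nsmul_eq_mul, card_nodes]

/-- the value at the corner -/
theorem qf_le_phi {D : ℕ} (r : ℝ) {A : Matrix (Mon N D) (Mon N D) ℝ} (hA : ∀ x, 0 ≤ x ⬝ᵥ (A *ᵥ x)) (p : Fin N → ℝ) :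
    qf A (vv p) ≤ phi r A p := by
  unfold phi
  have h1 : nodp D p r (fun _ => 0) = p := by
    funext i
    unfold nodp nod
    simp
  have h2 : qf A (vv p) = vv (nodp D p r fun _ => 0) ⬝ᵥ (A *ᵥ vv (nodp D p r fun _ => 0)) := by
    rw [h1]
    rfl
  rw [h2]
  exact Finset.single_le_sum (f := fun j : Fin N → Fin (D + 1) => vv (nodp D p r j) ⬝ᵥ (A *ᵥ vv (nodp D p r j)))
    (fun _ _ => hA _) (Finset.mem_univ _)

/-- quadratic forms of differences -/
theorem qf_sub_le {ι : Type} [Fintype ι] {A : Matrix ι ι ℝ} (hp : ∀ x, 0 ≤ x ⬝ᵥ (A *ᵥ x))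
    (u v : ι → ℝ) : qf A (u - v) ≤ 2 * (qf A u + qf A v) := by
  have h1 := hp (u + v)
  unfold qf
  rw [Matrix.mulVec_add, dotProduct_add, add_dotProduct, add_dotProduct] at h1
  rw [Matrix.mulVec_sub, dotProduct_sub, sub_dotProduct, sub_dotProduct]
  linarith

/-- velocity vectors -/
def Uv (m : ℕ) (x : Fin m → ℝ) : Mon (m + 1) 1 → ℝ := dd 0 0 + Wd m 1 0 *ᵥ x

theorem Uv_sub (x x' : Fin m → ℝ) : Uv m x - Uv m x' = Wd m 1 0 *ᵥ (x - x') := by
  unfold Uv
  rw [Matrix.mulVec_sub]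
  abel

/-- points of a line -/
theorem vv_line (a x : Fin m → ℝ) (t t' : ℝ) :
    (vv (pl a x t') : Mon (m + 1) 1 → ℝ) - vv (pl a x t) = (t' - t) • Uv m x := by
  rw [vv_one (pl a x t) (pl a x t'), add_sub_cancel_left, Fin.sum_univ_succ]
  unfold Uv
  rw [smul_add]
  congr 1
  funext b
  rw [Finset.sum_apply, Pi.smul_apply, smul_eq_mul, Matrix.mulVec, dotProduct, Finset.mul_sum]
  refine Finset.sum_congr rfl fun i _ => ?_
  rw [Pi.smul_apply, smul_eq_mul]
  have e1 : pl a x t' i.succ - pl a x t i.succ = (t' - t) * x i := by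
    show (a i + t' * x i) - (a i + t * x i) = _
    ring
  have e2 : Wd m 1 0 b i = dd i.succ 0 b := rfl
  rw [e1, e2]
  ring

/-- a form which is bounded at two points of a line is bounded at the velocity -/
theorem qf_Uv {A : Matrix (Mon (m + 1) 1) (Mon (m + 1) 1) ℝ} (hp : ∀ x, 0 ≤ x ⬝ᵥ (A *ᵥ x))
    (a x : Fin m → ℝ) (t t' r K : ℝ) (h1 : phi r A (pl a x t) ≤ K) (h2 : phi r A (pl a x t') ≤ K) :
    (t' - t) ^ 2 * qf A (Uv m x) ≤ 4 * K := by
  have h3 := qf_sub_le hp (vv (pl a x t')) (vv (pl a x t))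
  rw [vv_line] at h3
  have h4 : qf A ((t' - t) • Uv m x) = (t' - t) ^ 2 * qf A (Uv m x) := by
    unfold qf
    rw [Matrix.mulVec_smul, smul_dotProduct, dotProduct_smul, smul_eq_mul, smul_eq_mul]
    ring
  rw [h4] at h3
  have h5 := (qf_le_phi r hp (pl a x t)).trans h1
  have h6 := (qf_le_phi r hp (pl a x t')).trans h2
  linarith

/-- two lines on which a form is bounded have close velocities -/
theorem vel_close {A : Matrix (Mon (m + 1) 1) (Mon (m + 1) 1) ℝ} (hp : ∀ x, 0 ≤ x ⬝ᵥ (A *ᵥ x))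
    (w L r : ℝ) (q : Fin (m + 1) → ℝ) (hw : ∀ e : Fin m → ℝ, w * (e ⬝ᵥ e) ≤ e ⬝ᵥ (Jf r A q *ᵥ e))
    (x x' : Fin m → ℝ) (h1 : qf A (Uv m x) ≤ L) (h2 : qf A (Uv m x') ≤ L) (i : Fin m) :
    w * (x i - x' i) ^ 2 ≤ nn (m + 1) 1 * (4 * L) := by
  by_cases hw0 : w < 0
  · have h4 : 0 ≤ qf A (Uv m x) := hp _
    have h5 := nn_one (m + 1) 1
    have h6 : 0 ≤ nn (m + 1) 1 * (4 * L) := by nlinarith
    nlinarith [sq_nonneg (x i - x' i)]
  · have h3 := qf_sub_le hp (Uv m x) (Uv m x')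
    rw [Uv_sub] at h3
    have h4 := hw (x - x')
    rw [Jf_one] at h4
    have h5 : (x i - x' i) ^ 2 ≤ (x - x') ⬝ᵥ (x - x') := by
      unfold dotProduct
      have h6 : (x i - x' i) ^ 2 = (x - x') i * (x - x') i := by
        rw [Pi.sub_apply]
        ring
      rw [h6]
      exact Finset.single_le_sum (f := fun j => (x - x') j * (x - x') j) (fun _ _ => mul_self_nonneg _)
        (Finset.mem_univ i)
    have h7 := nn_one (m + 1) 1
    have h8 : w * (x i - x' i) ^ 2 ≤ w * ((x - x') ⬝ᵥ (x - x')) := mul_le_mul_of_nonneg_left h5 (not_lt.mp hw0)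
    have h9 : nn (m + 1) 1 * qf A (Wd m 1 0 *ᵥ (x - x')) ≤ nn (m + 1) 1 * (4 * L) :=
      mul_le_mul_of_nonneg_left (by linarith) (by linarith)
    linarith

end

end Pool.Agent.Helper59.GR
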