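import Pool.Agent.Helper59.GR.One
import Pool.Agent.Helper3.PR.Ub

/-! The volume determinant in dimension two (and one) from the extreme eigenvalues of the space block. -/

set_option autoImplicit false

namespace Pool.Agent.Helper59.GR

open Matrix Pool.Agent.Helper95.LF Pool.Agent.Helper3.LF Pool.Agent.Helper48.NS Pool.Agent.Helper89.LX
open Pool.Agent.Helper3.PR

noncomputable section

theorem quad_two (J : Matrix (Fin 2) (Fin 2) ℝ) (hs : J.IsSymm) (e : Fin 2 → ℝ) :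
    e ⬝ᵥ (J *ᵥ e) = J 0 0 * e 0 ^ 2 + 2 * J 0 1 * (e 0 * e 1) + J 1 1 * e 1 ^ 2 := by
  have h1 : J 1 0 = J 0 1 := hs.apply 0 1
  simp only [dotProduct, Matrix.mulVec, Fin.sum_univ_two]
  rw [h1]
  ring

theorem sq_two (e : Fin 2 → ℝ) : e ⬝ᵥ e = e 0 ^ 2 + e 1 ^ 2 := by
  simp only [dotProduct, Fin.sum_univ_two]
  ring

theorem det_two (J : Matrix (Fin 2) (Fin 2) ℝ) (hs : J.IsSymm) :
    (1 + J).det = (1 + J 0 0) * (1 + J 1 1) - J 0 1 ^ 2 := by
  have h1 : J 1 0 = J 0 1 := hs.apply 0 1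
  rw [Matrix.det_fin_two]
  simp only [Matrix.add_apply, Matrix.one_apply_eq]
  rw [Matrix.one_apply_ne (show (0 : Fin 2) ≠ 1 by decide), Matrix.one_apply_ne (show (1 : Fin 2) ≠ 0 by decide), h1]
  ring

theorem det_two_lower (J : Matrix (Fin 2) (Fin 2) ℝ) (hs : J.IsSymm) (w : ℝ) (hw0 : 0 ≤ w)
    (hw : ∀ e : Fin 2 → ℝ, w * (e ⬝ᵥ e) ≤ e ⬝ᵥ (J *ᵥ e)) :
    (1 + w) * (1 + (J 0 0 + J 1 1)) / 2 ≤ (1 + J).det := by
  have key : ∀ x y : ℝ, w * (x ^ 2 + y ^ 2) ≤ J 0 0 * x ^ 2 + 2 * J 0 1 * (x * y) + J 1 1 * y ^ 2 := by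
    intro x y
    have h1 := hw ![x, y]
    rw [quad_two J hs, sq_two] at h1
    simpa using h1
  set a := J 0 0 with ha
  set b := J 0 1 with hb
  set d := J 1 1 with hd
  have h1 : w ≤ a := by
    have := key 1 0
    nlinarith
  have h2 : w ≤ d := by
    have := key 0 1
    nlinarith
  have h3 : b ^ 2 ≤ (a - w) * (d - w) := by
    rcases h1.eq_or_lt with h4 | h4
    · have h5 := key (-(b * (d - w + 1))) (b ^ 2)
      have h5' := key (-((d - w + 1))) b
      have h6 : b = 0 := by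
        by_contra hne
        have h7 : 0 < b ^ 2 := by positivity
        nlinarith
      rw [h6, ← h4]
      nlinarith
    · have h5 := key (-b) (a - w)
      have h6 : 0 < a - w := by linarith
      have h7 : 0 ≤ (a - w) * ((a - w) * (d - w) - b ^ 2) := by nlinarith
      have h8 := nonneg_of_mul_nonneg_right h7 h6
      linarith
  rw [det_two J hs]
  nlinarith

theorem det_two_upper (J : Matrix (Fin 2) (Fin 2) ℝ) (hs : J.IsSymm) (hp : ∀ e : Fin 2 → ℝ, 0 ≤ e ⬝ᵥ (J *ᵥ e))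
    (v g : ℝ) (hv : 0 ≤ v) (hg : J 0 0 + J 1 1 ≤ g) (e : Fin 2 → ℝ) (he : 0 < e ⬝ᵥ e)
    (h : e ⬝ᵥ (J *ᵥ e) ≤ v * (e ⬝ᵥ e)) : (1 + J).det ≤ (1 + v) * (1 + g) := by
  have key : ∀ x y : ℝ, 0 ≤ J 0 0 * x ^ 2 + 2 * J 0 1 * (x * y) + J 1 1 * y ^ 2 := by
    intro x y
    have h1 := hp ![x, y]
    rw [quad_two J hs] at h1
    simpa using h1
  rw [quad_two J hs, sq_two] at h
  rw [sq_two] at he
  rw [det_two J hs]
  set a := J 0 0 with ha
  set b := J 0 1 with hb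
  set d := J 1 1 with hd
  set p := e 0 with hpp
  set q := e 1 with hq
  set N := p ^ 2 + q ^ 2 with hN
  have h1 := key p q
  have h2 := key (-q) p
  set X := a * p ^ 2 + 2 * b * (p * q) + d * q ^ 2 with hX
  have hY : a * (-q) ^ 2 + 2 * b * (-q * p) + d * p ^ 2 = (a + d) * N - X := by
    rw [hX, hN]
    ring
  rw [hY] at h2
  have hag : 0 ≤ a + d := by
    have b1 := key 1 0
    have b2 := key 0 1
    nlinarith
  -- the determinant in the rotated basis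
  have h3 : ((1 + a) * (1 + d) - b ^ 2) * N ^ 2 = (N + X) * (N + ((a + d) * N - X)) -
      ((d - a) * (p * q) + b * (p ^ 2 - q ^ 2)) ^ 2 := by
    rw [hX, hN]
    ring
  have h4 : ((1 + a) * (1 + d) - b ^ 2) * N ^ 2 ≤ (N + X) * (N + ((a + d) * N - X)) := by
    rw [h3]
    have := sq_nonneg ((d - a) * (p * q) + b * (p ^ 2 - q ^ 2))
    linarith
  have h5 : (N + X) * (N + ((a + d) * N - X)) ≤ ((1 + v) * N) * ((1 + g) * N) := by
    apply mul_le_mul
    · linarith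
    · nlinarith
    · linarith
    · positivity
  have h6 : ((1 + a) * (1 + d) - b ^ 2) * N ^ 2 ≤ ((1 + v) * (1 + g)) * N ^ 2 := by
    refine (h4.trans h5).trans (le_of_eq ?_)
    ring
  exact le_of_mul_le_mul_right h6 (by positivity)

theorem trJ_two {D : ℕ} (r : ℝ) (A : Matrix (Mon (2 + 1) D) (Mon (2 + 1) D) ℝ) (p : Fin (2 + 1) → ℝ) :
    Jf r A p 0 0 + Jf r A p 1 1 = trJ r A p := by
  unfold trJ
  rw [Fin.sum_univ_two, Jf_apply, Jf_apply]

end

end Pool.Agent.Helper59.GR
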