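import Pool.Agent.Helper59.GR.Low
import Pool.Agent.Helper59.GR.Two
import Pool.Agent.Helper3.PR.Tj
import Pool.Agent.Helper42.NS.Hfb

/-! THE VOLUME OF DEGREE ONE: in dimension two the logarithmic volume of the window `c` is
`2 (min 1 (c + lam) + eta(c))`; in dimension one it is `2 min 1 (c + lam)`. -/

set_option autoImplicit false

namespace Pool.Agent.Helper59.GR

open Finset Filter Topology Matrix Pool.Agent.Helper69.RK Pool.Agent.Helper31.EC Pool.Agent.Helper31.EC.Sp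
open Pool.Agent.Helper40.EL Pool.Agent.Helper95.LF Pool.Agent.Helper3.LF Pool.Agent.Helper48.NS
open Pool.Agent.Helper89.LX Pool.Agent.Helper3.PR Pool.Agent.Helper42.NS Pool.Agent.Helper52.SL

noncomputable section

variable {S : Sp} {m D : ℕ} {s : Sys S m}

theorem pb_ind (F : FSp) (Q : F.Ω → Prop) : F.pb Q = ∑ ω, F.μ ω * e1_ind (Q ω) := by
  unfold FSp.pb mass
  apply Finset.sum_congr rfl
  intro ω _
  by_cases h : Q ω
  · rw [res_pos _ _ _ h, e1_ind_pos h, mul_one]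
  · rw [res_neg _ _ _ h, e1_ind_neg h, mul_zero]

/-- typical upper bounds for the volume determinant -/
theorem lgd_le_of_typ {A B : Part S} (s : Sys S m) {x : ∀ k, FD (S.F k) (Mon (m + 1) D)}
    (hx : (gau s D).Ad A B x) (α : ℝ) (hα : 0 ≤ α)
    (h : Sp.Typ (S := (lb x).sp) (fun k (ω : (x k).l.T.Ω) =>
      GG (S.dl 1 k) ((x k).g ω) (ptf s k ((x k).l.p.π ω)) ≤ 2 ^ (α * (S.F k).n))) :
    ul (fun k => lgd s D x k / (S.F k).n) ≤ α := by
  classical
  obtain ⟨C, hC, hub⟩ := logGG_ub s D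
  have h' : Tendsto (fun k => (x k).l.T.pb (fun ω =>
      ¬ GG (S.dl 1 k) ((x k).g ω) (ptf s k ((x k).l.p.π ω)) ≤ 2 ^ (α * (S.F k).n))) UF (𝓝 0) := h
  have t1 := (h'.const_mul C).const_add α
  rw [mul_zero, add_zero] at t1
  refine le_of_tendsto_of_tendsto (ul_tendsto (lgd_UB s hx)) t1 ?_
  filter_upwards [hub, hx 1 one_pos] with k h1 h2
  have hn := (S.F k).pos
  rw [div_le_iff₀ hn]
  have h3 : lgd s D x k ≤ ∑ ω, (x k).l.T.μ ω * (α * (S.F k).n + C * (S.F k).n *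
      e1_ind (¬ GG (S.dl 1 k) ((x k).g ω) (ptf s k ((x k).l.p.π ω)) ≤ 2 ^ (α * (S.F k).n))) := by
    refine Finset.sum_le_sum fun ω _ => ?_
    by_cases h0 : (x k).l.T.μ ω = 0
    · rw [h0, zero_mul, zero_mul]
    · apply mul_le_mul_of_nonneg_left _ ((x k).l.T.nn ω)
      have hA := (h2.2.2.1 ω h0).1
      by_cases hE : GG (S.dl 1 k) ((x k).g ω) (ptf s k ((x k).l.p.π ω)) ≤ 2 ^ (α * (S.F k).n)
      · rw [e1_ind_neg (not_not.mpr hE), mul_zero, add_zero, Real.logb_le_iff_le_rpow (by norm_num) (GG_pos' _ hA.pdM _)]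
        exact hE
      · rw [e1_ind_pos hE, mul_one]
        have := h1 _ ((x k).l.p.supp ω h0) _ hA
        nlinarith
  refine h3.trans (le_of_eq ?_)
  rw [pb_ind]
  simp only [mul_add, Finset.sum_add_distrib]
  rw [← Finset.sum_mul, sum_mu, one_mul, add_mul, Finset.mul_sum, Finset.sum_mul]
  congr 1
  exact Finset.sum_congr rfl fun ω _ => by ring

/-- typical lower bounds for the volume determinant -/
theorem le_lgd_of_typ {A B : Part S} (s : Sys S m) {x : ∀ k, FD (S.F k) (Mon (m + 1) D)}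
    (hx : (gau s D).Ad A B x) (α : ℝ)
    (h : Sp.Typ (S := (lb x).sp) (fun k (ω : (x k).l.T.Ω) =>
      2 ^ (α * (S.F k).n) ≤ GG (S.dl 1 k) ((x k).g ω) (ptf s k ((x k).l.p.π ω)))) :
    α ≤ ul (fun k => lgd s D x k / (S.F k).n) := by
  classical
  have h' : Tendsto (fun k => (x k).l.T.pb (fun ω =>
      ¬ 2 ^ (α * (S.F k).n) ≤ GG (S.dl 1 k) ((x k).g ω) (ptf s k ((x k).l.p.π ω)))) UF (𝓝 0) := h
  have t1 := (h'.const_mul |α|).const_sub α
  rw [mul_zero, sub_zero] at t1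
  refine le_of_tendsto_of_tendsto t1 (ul_tendsto (lgd_UB s hx)) ?_
  filter_upwards [hx 1 one_pos] with k h2
  have hn := (S.F k).pos
  rw [le_div_iff₀ hn]
  have h3 : ∑ ω, (x k).l.T.μ ω * (α * (S.F k).n - |α| * (S.F k).n *
      e1_ind (¬ 2 ^ (α * (S.F k).n) ≤ GG (S.dl 1 k) ((x k).g ω) (ptf s k ((x k).l.p.π ω)))) ≤
      lgd s D x k := by
    refine Finset.sum_le_sum fun ω _ => ?_
    by_cases h0 : (x k).l.T.μ ω = 0
    · rw [h0, zero_mul, zero_mul]
    · apply mul_le_mul_of_nonneg_left _ ((x k).l.T.nn ω)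
      have hA := (h2.2.2.1 ω h0).1
      by_cases hE : 2 ^ (α * (S.F k).n) ≤ GG (S.dl 1 k) ((x k).g ω) (ptf s k ((x k).l.p.π ω))
      · rw [e1_ind_neg (not_not.mpr hE), mul_zero, sub_zero, Real.le_logb_iff_rpow_le (by norm_num) (GG_pos' _ hA.pdM _)]
        exact hE
      · rw [e1_ind_pos hE, mul_one]
        have h4 := logGG_nonneg (S.dl 1 k) hA.pdM (ptf s k ((x k).l.p.π ω))
        have h5 := le_abs_self α
        nlinarith
  refine le_trans (le_of_eq ?_) h3
  rw [pb_ind]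
  simp only [mul_sub, Finset.sum_sub_distrib]
  rw [← Finset.sum_mul, sum_mu, one_mul, sub_mul, Finset.mul_sum, Finset.sum_mul]
  congr 1
  exact Finset.sum_congr rfl fun ω _ => by ring

/-- in a robust system the gradient of every bounding form is typically at most the thickness (helper48's `sga_eta`) -/
theorem gam_eta (hs : RobH s) {c : ℝ} {x : ∀ k, FD (S.F k) (Mon (m + 1) D)}
    (hx : (gau s D).Ad (cA s c) (cB s) x) (δ : ℝ) (hδ : 0 < δ) :
    Tendsto (fun k => (x k).l.T.pb (fun ω =>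
      ¬ sga s D k ((x k).l.p.π ω) ((x k).g ω) ≤ 2 ^ (2 * (eta s D c + δ) * (S.F k).n))) UF (𝓝 0) := by
  classical
  set P : ℕ → ℝ := fun k => (x k).l.T.pb (fun ω =>
      ¬ sga s D k ((x k).l.p.π ω) ((x k).g ω) ≤ 2 ^ (2 * (eta s D c + δ) * (S.F k).n)) with hP
  have hU : UB P := UB_of_nonneg_le (C := 1) (Eventually.of_forall fun k => (x k).l.T.pb_nonneg _)
    (Eventually.of_forall fun k => (x k).l.T.pb_le_one _)
  have hlim := ul_tendsto hU
  have h0 : 0 ≤ ul P := ge_of_tendsto hlim (Eventually.of_forall fun k => (x k).l.T.pb_nonneg _)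
  rcases h0.eq_or_lt with h1 | h1
  · rw [← h1] at hlim
    exact hlim
  exfalso
  have hmem : ul P ∈ psiS (GD m D) s c (eta s D c + δ) := by
    intro η hη
    filter_upwards [hx η hη, hlim.eventually (lt_mem_nhds (show ul P - η < ul P by linarith))] with k a b
    have hn := (S.F k).pos
    refine ⟨ofFD (x k) (fun ω hω => (a.2.2.1 ω hω).1), a.1, a.2.1, pb_of_compl a.2.2.2.1, ?_⟩
    refine b.le.trans ?_
    show (x k).l.T.pb _ ≤ (x k).l.T.pb _
    apply FSp.pb_mono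
    intro ω _ h2
    refine le_trans ?_ (not_le.mp h2).le
    show (2 : ℝ) ^ (2 * (eta s D c + δ - η) * (S.F k).n) ≤ _
    apply Real.rpow_le_rpow_of_exponent_le (by norm_num)
    nlinarith
  have h2 : 0 < psi (GD m D) s c (eta s D c + δ) := h1.trans_le (le_psi s hmem)
  have h3 : HH (GD m D) s c (eta s D c + δ) := RobustG.HH_of_pos hs D h2
  have h4 := le_eta (Hf_of_HH h3)
  linarith

/-- large space blocks have large traces -/
theorem Big.trJ (hm : 0 < m) {x : ∀ k, FD (S.F k) (Mon (m + 1) 1)} {r : ℝ} {k : ℕ} {ω : (x k).l.T.Ω}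
    (h : Big s x r k ω) (hA : PdM ((x k).g ω)) :
    2 ^ (2 * r * (S.F k).n) ≤ trJ (S.dl 1 k) ((x k).g ω) (ptf s k ((x k).l.p.π ω)) := by
  have h1 := h (Pi.single ⟨0, hm⟩ 1)
  have h2 := Jf_le_trJ (S.dl 1 k) ((x k).g ω) hA (ptf s k ((x k).l.p.π ω)) (Pi.single ⟨0, hm⟩ 1)
  have h3 : (Pi.single ⟨0, hm⟩ 1 : Fin m → ℝ) ⬝ᵥ Pi.single ⟨0, hm⟩ 1 = 1 := by
    rw [single_one_dotProduct, Pi.single_eq_same]
  rw [h3, mul_one] at h1 h2
  exact h1.trans h2

/-- the box is contained in a hypersurface of its thickness -/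
theorem Hf_box (hm : 0 < m) {c w : ℝ} (hc : 0 ≤ c) (hc1 : c ≤ 1) (hw1 : w ≤ 1) (hw : w ≤ c + lam s) :
    Hf s 1 c w := by
  obtain ⟨y, hy, hT⟩ := exists_box (s := s) (u := lam s) (w := w) hc hc1 lam_nonneg hw1 hw H_lam
  refine ⟨y, hy, fun e he => ?_⟩
  have hT' : Tendsto (fun k => (y k).l.T.pb (fun ω => ¬ Big s y w k ω)) UF (𝓝 0) := hT
  refine squeeze_zero' (Eventually.of_forall fun k => FSp.pb_nonneg _ _) ?_ hT'
  filter_upwards [hy 1 one_pos] with k hk
  apply FSp.pb_mono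
  intro ω hω h1 h2
  apply h1
  have hA := (hk.2.2.1 ω hω).1.pdM
  have h3 := h2.trJ hm hA
  have h4 := trJ_le_gam (S.dl 1 k) hA.nonneg (ptf s k ((y k).l.p.π ω))
  refine le_trans ?_ (h3.trans h4)
  apply Real.rpow_le_rpow_of_exponent_le (by norm_num)
  have := (S.F k).pos
  nlinarith

theorem le_eta_box (hm : 0 < m) {c w : ℝ} (hc : 0 ≤ c) (hc1 : c ≤ 1) (hw1 : w ≤ 1) (hw : w ≤ c + lam s) :
    w ≤ eta s 1 c := le_eta (Hf_box hm hc hc1 hw1 hw)

/-- (the smallest exponent is at most the largest one) `lam <= eta(0)` -/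
theorem lam_le_eta (hm : 0 < m) : lam s ≤ eta s 1 0 :=
  le_eta_box hm le_rfl zero_le_one lam_le_one (by rw [zero_add])

/-- the largest exponent of optimal forms is `eta(c)` -/
theorem tr_typ (hm : 0 < m) {c : ℝ} (h0 : 0 ≤ c) (h1 : c < 1) {x : ∀ k, FD (S.F k) (Mon (m + 1) 1)}
    (hx : (gau s 1).Opt (cA s c) (cB s) x) (e : ℝ) (he : 0 < e) :
    Sp.Typ (S := (lb x).sp) (fun k (ω : (x k).l.T.Ω) => 2 ^ (2 * (eta s 1 c - e) * (S.F k).n) ≤
      1 + trJ (S.dl 1 k) ((x k).g ω) (ptf s k ((x k).l.p.π ω))) := by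
  by_cases h2 : c < eta s 1 c
  · exact trJ_typ s h0 h1 (Hf_eta le_rfl c) (Or.inl h2) hx e he
  · have h3 : eta s 1 c = c := le_antisymm (not_lt.mp h2) (eta_ge_self le_rfl h0 h1.le)
    have h4 := big_typ (s := s) (r := c - e) h0 h1.le hx (by linarith) (by
      have := lam_nonneg (s := s)
      linarith)
    refine typ_mono h4 ?_
    filter_upwards [hx.1 1 one_pos] with k hk ω hω hB
    have hA := (hk.2.2.1 ω hω).1.pdM
    have h5 := hB.trJ hm hA
    rw [h3]
    linarith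

end

section

variable {S : Sp} (s : Sys S 2)

/-- upper bound of the volume in dimension two -/
theorem lvol_two_upper (hX : RobX s) (hH : RobH s) (hi : ic s 0 = 0) {c : ℝ} (h0 : 0 ≤ c) (h1 : c < 1)
    (hcl : c + lam s < 1) : lvol s 1 c ≤ 2 * (c + lam s + eta s 1 c) := by
  obtain ⟨x, hx, -⟩ := exists_can s 1 c
  rw [← lvol_eq s hx]
  have hlam := lam_nonneg (s := s)
  have heta := eta_nonneg (s := s) (D := 1) le_rfl c
  apply le_of_forall_pos_lt_add
  intro e he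
  set δ : ℝ := min (e / 6) ((1 - (c + lam s)) / 2) with hδ
  have hδ0 : 0 < δ := lt_min (by linarith) (by linarith)
  have hδ1 : δ ≤ e / 6 := min_le_left _ _
  have hδ2 : δ ≤ (1 - (c + lam s)) / 2 := min_le_right _ _
  have t1 := small_typ (s := s) hX hi (r := c + lam s + δ) h0 h1 (by linarith) (by linarith) hx.1
  have t2 : Sp.Typ (S := (lb x).sp) (fun k (ω : (x k).l.T.Ω) =>
      sga s 1 k ((x k).l.p.π ω) ((x k).g ω) ≤ 2 ^ (2 * (eta s 1 c + δ) * (S.F k).n)) := gam_eta hH hx.1 δ hδ0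
  have t3 := lgd_le_of_typ s hx.1 (2 * (c + lam s + δ) + 2 * (eta s 1 c + δ) + δ) (by linarith) (by
    refine typ_mono (typ_and t1 t2) ?_
    have h4 : ∀ᶠ k in UF, (4 : ℝ) ≤ 2 ^ (δ * (S.F k).n) := by
      filter_upwards [(S.Sub_const (show (0 : ℝ) ≤ 4 by norm_num)).eventually_le hδ0] with k hk
      linarith
    filter_upwards [hx.1 1 one_pos, h4] with k hk h4 ω hω hE
    obtain ⟨f1, f2⟩ := hE
    have hn := (S.F k).pos
    have hA := (hk.2.2.1 ω hω).1.pdM
    have hs := Jf_symm (S.dl 1 k) hA.1 (ptf s k ((x k).l.p.π ω))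
    have hp := Jf_nonneg (S.dl 1 k) hA.nonneg (ptf s k ((x k).l.p.π ω))
    unfold Big at f1
    push Not at f1
    obtain ⟨v, hv⟩ := f1
    have hvp : 0 < v ⬝ᵥ v := by
      rcases (dot_self_nonneg v).eq_or_lt with h5 | h5
      · rw [← h5, mul_zero] at hv
        exact absurd (hp v) (not_le.mpr hv)
      · exact h5
    have h6 := trJ_le_gam (S.dl 1 k) hA.nonneg (ptf s k ((x k).l.p.π ω))
    have h7 : trJ (S.dl 1 k) ((x k).g ω) (ptf s k ((x k).l.p.π ω)) ≤ 2 ^ (2 * (eta s 1 c + δ) * (S.F k).n) :=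
      h6.trans f2
    rw [← trJ_two] at h7
    have h8 := det_two_upper _ hs hp (2 ^ (2 * (c + lam s + δ) * (S.F k).n))
      (2 ^ (2 * (eta s 1 c + δ) * (S.F k).n)) (by positivity) h7 v hvp hv.le
    have p1 : (1 : ℝ) ≤ 2 ^ (2 * (c + lam s + δ) * (S.F k).n) :=
      Real.one_le_rpow (by norm_num) (by positivity)
    have p2 : (1 : ℝ) ≤ 2 ^ (2 * (eta s 1 c + δ) * (S.F k).n) := Real.one_le_rpow (by norm_num) (by positivity)
    have e1 : (2 : ℝ) ^ ((2 * (c + lam s + δ) + 2 * (eta s 1 c + δ) + δ) * (S.F k).n) =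
        2 ^ (2 * (c + lam s + δ) * (S.F k).n) * 2 ^ (2 * (eta s 1 c + δ) * (S.F k).n) * 2 ^ (δ * (S.F k).n) := by
      rw [← Real.rpow_add (by norm_num), ← Real.rpow_add (by norm_num)]
      congr 1
      ring
    have h9 : GG (S.dl 1 k) ((x k).g ω) (ptf s k ((x k).l.p.π ω)) ≤
        (1 + 2 ^ (2 * (c + lam s + δ) * (S.F k).n)) * (1 + 2 ^ (2 * (eta s 1 c + δ) * (S.F k).n)) := h8
    rw [e1]
    refine h9.trans ?_
    have p3 : (0 : ℝ) < 2 ^ (2 * (c + lam s + δ) * (S.F k).n) := by positivity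
    have p4 : (0 : ℝ) < 2 ^ (2 * (eta s 1 c + δ) * (S.F k).n) := by positivity
    calc (1 + (2 : ℝ) ^ (2 * (c + lam s + δ) * (S.F k).n)) * (1 + 2 ^ (2 * (eta s 1 c + δ) * (S.F k).n)) ≤
        (2 * 2 ^ (2 * (c + lam s + δ) * (S.F k).n)) * (2 * 2 ^ (2 * (eta s 1 c + δ) * (S.F k).n)) :=
          mul_le_mul (by linarith) (by linarith) (by linarith) (by linarith)
      _ = 2 ^ (2 * (c + lam s + δ) * (S.F k).n) * 2 ^ (2 * (eta s 1 c + δ) * (S.F k).n) * 4 := by ring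
      _ ≤ _ := mul_le_mul_of_nonneg_left h4 (by positivity))
  linarith

/-- lower bound of the volume in dimension two -/
theorem lvol_two_lower {c : ℝ} (h0 : 0 ≤ c) (h1 : c < 1) :
    2 * (min 1 (c + lam s) + eta s 1 c) ≤ lvol s 1 c := by
  obtain ⟨x, hx, -⟩ := exists_can s 1 c
  rw [← lvol_eq s hx]
  apply le_of_forall_pos_le_add
  intro e he
  set δ : ℝ := e / 5 with hδ
  have hδ0 : 0 < δ := by positivity
  have t1 := big_typ (s := s) (r := min 1 (c + lam s) - δ) h0 h1.le hx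
    (by have := min_le_left 1 (c + lam s); linarith) (by have := min_le_right 1 (c + lam s); linarith)
  have t2 := tr_typ (s := s) (by norm_num) h0 h1 hx δ hδ0
  have t3 := le_lgd_of_typ s hx.1 (2 * (min 1 (c + lam s) - δ) + 2 * (eta s 1 c - δ) - δ) (by
    refine typ_mono (typ_and t1 t2) ?_
    have h4 : ∀ᶠ k in UF, (2 : ℝ) ≤ 2 ^ (δ * (S.F k).n) := by
      filter_upwards [(S.Sub_const (show (0 : ℝ) ≤ 2 by norm_num)).eventually_le hδ0] with k hk
      linarith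
    filter_upwards [hx.1 1 one_pos, h4] with k hk h4 ω hω hE
    obtain ⟨f1, f2⟩ := hE
    have hA := (hk.2.2.1 ω hω).1.pdM
    have hs := Jf_symm (S.dl 1 k) hA.1 (ptf s k ((x k).l.p.π ω))
    have h8 := det_two_lower _ hs (2 ^ (2 * (min 1 (c + lam s) - δ) * (S.F k).n)) (by positivity) f1
    rw [trJ_two] at h8
    have f2' : (2 : ℝ) ^ (2 * (eta s 1 c - δ) * (S.F k).n) ≤
      1 + trJ (S.dl 1 k) ((x k).g ω) (ptf s k ((x k).l.p.π ω)) := f2
    have h9 : (1 + (2 : ℝ) ^ (2 * (min 1 (c + lam s) - δ) * (S.F k).n)) *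
        (1 + trJ (S.dl 1 k) ((x k).g ω) (ptf s k ((x k).l.p.π ω))) / 2 ≤
        GG (S.dl 1 k) ((x k).g ω) (ptf s k ((x k).l.p.π ω)) := h8
    refine le_trans ?_ h9
    have p3 : (0 : ℝ) < 2 ^ (2 * (min 1 (c + lam s) - δ) * (S.F k).n) := by positivity
    have p4 : (0 : ℝ) < 2 ^ (2 * (eta s 1 c - δ) * (S.F k).n) := by positivity
    have p5 : (0 : ℝ) < 2 ^ (δ * (S.F k).n) := by positivity
    have e1 : (2 : ℝ) ^ (2 * (min 1 (c + lam s) - δ) * (S.F k).n) * 2 ^ (2 * (eta s 1 c - δ) * (S.F k).n) =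
        2 ^ ((2 * (min 1 (c + lam s) - δ) + 2 * (eta s 1 c - δ) - δ) * (S.F k).n) * 2 ^ (δ * (S.F k).n) := by
      rw [← Real.rpow_add (by norm_num), ← Real.rpow_add (by norm_num)]
      congr 1
      ring
    have e2 : (2 : ℝ) ^ ((2 * (min 1 (c + lam s) - δ) + 2 * (eta s 1 c - δ) - δ) * (S.F k).n) * 2 ≤
        (1 + 2 ^ (2 * (min 1 (c + lam s) - δ) * (S.F k).n)) *
        (1 + trJ (S.dl 1 k) ((x k).g ω) (ptf s k ((x k).l.p.π ω))) := by
      calc _ ≤ (2 : ℝ) ^ ((2 * (min 1 (c + lam s) - δ) + 2 * (eta s 1 c - δ) - δ) * (S.F k).n) *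
            2 ^ (δ * (S.F k).n) := mul_le_mul_of_nonneg_left h4 (by positivity)
        _ = 2 ^ (2 * (min 1 (c + lam s) - δ) * (S.F k).n) * 2 ^ (2 * (eta s 1 c - δ) * (S.F k).n) := e1.symm
        _ ≤ _ := mul_le_mul (by linarith) f2' p4.le (by linarith)
    linarith)
  linarith

/-- THE VOLUME OF DEGREE ONE IN DIMENSION TWO -/
theorem lvol_two (hX : RobX s) (hH : RobH s) (hi : ic s 0 = 0) {c : ℝ} (h0 : 0 ≤ c) (h1 : c < 1) :
    lvol s 1 c = 2 * (min 1 (c + lam s) + eta s 1 c) := by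
  apply le_antisymm _ (lvol_two_lower s h0 h1)
  by_cases hcl : c + lam s < 1
  · rw [min_eq_right hcl.le]
    exact lvol_two_upper s hX hH hi h0 h1 hcl
  · rw [min_eq_left (not_lt.mp hcl)]
    have h2 : eta s 1 c = 1 := le_antisymm (eta_le_one le_rfl c)
      (le_eta_box (by norm_num) h0 h1.le le_rfl (not_lt.mp hcl))
    obtain ⟨x, hx, -⟩ := exists_can s 1 c
    rw [← lvol_eq s hx]
    apply le_of_forall_pos_lt_add
    intro e he
    have t2 : Sp.Typ (S := (lb x).sp) (fun k (ω : (x k).l.T.Ω) =>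
      sga s 1 k ((x k).l.p.π ω) ((x k).g ω) ≤ 2 ^ (2 * (eta s 1 c + e / 8) * (S.F k).n)) :=
      gam_eta hH hx.1 (e / 8) (by linarith)
    have t3 := lgd_le_of_typ s hx.1 (4 + 3 * e / 4) (by positivity) (by
      refine typ_mono t2 ?_
      have h4 : ∀ᶠ k in UF, (2 : ℝ) ≤ 2 ^ (e / 8 * (S.F k).n) := by
        filter_upwards [(S.Sub_const (show (0 : ℝ) ≤ 2 by norm_num)).eventually_le
          (show 0 < e / 8 by linarith)] with k hk
        linarith
      filter_upwards [hx.1 1 one_pos, h4] with k hk h4 ω hω f2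
      have hn := (S.F k).pos
      have hA := (hk.2.2.1 ω hω).1.pdM
      have h6 := trJ_le_gam (S.dl 1 k) hA.nonneg (ptf s k ((x k).l.p.π ω))
      have h7 : trJ (S.dl 1 k) ((x k).g ω) (ptf s k ((x k).l.p.π ω)) ≤ 2 ^ (2 * (1 + e / 8) * (S.F k).n) := by
        rw [h2] at f2
        exact h6.trans f2
      have h8 := GG_le_trJ (S.dl 1 k) ((x k).g ω) hA (ptf s k ((x k).l.p.π ω))
      have h9 := trJ_nonneg (S.dl 1 k) hA.nonneg (ptf s k ((x k).l.p.π ω))
      have p2 : (1 : ℝ) ≤ 2 ^ (2 * (1 + e / 8) * (S.F k).n) := Real.one_le_rpow (by norm_num) (by positivity)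
      have h10 : 1 + trJ (S.dl 1 k) ((x k).g ω) (ptf s k ((x k).l.p.π ω)) ≤
          2 ^ ((2 + 3 * e / 8) * (S.F k).n) := by
        calc 1 + trJ (S.dl 1 k) ((x k).g ω) (ptf s k ((x k).l.p.π ω)) ≤
            2 * 2 ^ (2 * (1 + e / 8) * (S.F k).n) := by linarith
          _ ≤ 2 ^ (e / 8 * (S.F k).n) * 2 ^ (2 * (1 + e / 8) * (S.F k).n) :=
              mul_le_mul_of_nonneg_right h4 (by positivity)
          _ = _ := by
              rw [← Real.rpow_add (by norm_num)]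
              congr 1
              ring
      refine h8.trans ((pow_le_pow_left₀ (by linarith) h10 2).trans (le_of_eq ?_))
      rw [← Real.rpow_natCast, ← Real.rpow_mul (by norm_num)]
      congr 1
      push_cast
      ring)
    linarith

/-- THE REGULAR VOLUME OF DEGREE ONE IN DIMENSION TWO: `2 - lam - eta` -/
theorem rvol_two (hX : RobX s) (hH : RobH s) (hi : ic s 0 = 0) {x : ∀ k, FD (S.F k) (Mon (2 + 1) 1)}
    (hx : (gau s 1).Opt (cA s 0) (cB s) x) :
    2 - ul (fun k => lgd s 1 x k / (S.F k).n) / 2 = 2 - lam s - eta s 1 0 := by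
  have h1 := lvol_two s hX hH hi le_rfl zero_lt_one
  rw [zero_add, min_eq_right lam_le_one] at h1
  rw [lvol_eq s hx, h1]
  ring

end

section

variable {S : Sp} (s : Sys S 1)

theorem quad_one (J : Matrix (Fin 1) (Fin 1) ℝ) (e : Fin 1 → ℝ) : e ⬝ᵥ (J *ᵥ e) = J 0 0 * e 0 ^ 2 := by
  simp only [dotProduct, Matrix.mulVec, Fin.sum_univ_one]
  ring

theorem det_one' (J : Matrix (Fin 1) (Fin 1) ℝ) : (1 + J).det = 1 + J 0 0 := by
  rw [Matrix.det_fin_one]
  rfl

/-- THE VOLUME OF DEGREE ONE IN DIMENSION ONE -/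
theorem lvol_one (hX : RobX s) (hi : ic s 0 = 0) {c : ℝ} (h0 : 0 ≤ c) (h1 : c < 1) (hcl : c + lam s < 1) :
    lvol s 1 c = 2 * (c + lam s) := by
  obtain ⟨x, hx, -⟩ := exists_can s 1 c
  have hlam := lam_nonneg (s := s)
  rw [← lvol_eq s hx]
  apply le_antisymm
  · apply le_of_forall_pos_lt_add
    intro e he
    set δ : ℝ := min (e / 6) ((1 - (c + lam s)) / 2) with hδ
    have hδ0 : 0 < δ := lt_min (by linarith) (by linarith)
    have hδ1 : δ ≤ e / 6 := min_le_left _ _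
    have hδ2 : δ ≤ (1 - (c + lam s)) / 2 := min_le_right _ _
    have t1 := small_typ (s := s) hX hi (r := c + lam s + δ) h0 h1 (by linarith) (by linarith) hx.1
    have t3 := lgd_le_of_typ s hx.1 (2 * (c + lam s + δ) + δ) (by linarith) (by
      refine typ_mono t1 ?_
      have h4 : ∀ᶠ k in UF, (2 : ℝ) ≤ 2 ^ (δ * (S.F k).n) := by
        filter_upwards [(S.Sub_const (show (0 : ℝ) ≤ 2 by norm_num)).eventually_le hδ0] with k hk
        linarith
      filter_upwards [h4] with k h4 ω hω f1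
      have hn := (S.F k).pos
      unfold Big at f1
      push Not at f1
      obtain ⟨v, hv⟩ := f1
      rw [quad_one] at hv
      have hvv : v ⬝ᵥ v = v 0 ^ 2 := by
        simp only [dotProduct, Fin.sum_univ_one]
        ring
      rw [hvv] at hv
      have h5 : Jf (S.dl 1 k) ((x k).g ω) (ptf s k ((x k).l.p.π ω)) 0 0 < 2 ^ (2 * (c + lam s + δ) * (S.F k).n) := by
        by_contra hcon
        have := mul_le_mul_of_nonneg_right (not_lt.mp hcon) (sq_nonneg (v 0))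
        linarith
      have h6 : GG (S.dl 1 k) ((x k).g ω) (ptf s k ((x k).l.p.π ω)) =
        1 + Jf (S.dl 1 k) ((x k).g ω) (ptf s k ((x k).l.p.π ω)) 0 0 := det_one' _
      rw [h6]
      have p1 : (1 : ℝ) ≤ 2 ^ (2 * (c + lam s + δ) * (S.F k).n) := Real.one_le_rpow (by norm_num) (by positivity)
      have e1 : (2 : ℝ) ^ ((2 * (c + lam s + δ) + δ) * (S.F k).n) =
          2 ^ (2 * (c + lam s + δ) * (S.F k).n) * 2 ^ (δ * (S.F k).n) := by
        rw [← Real.rpow_add (by norm_num)]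
        congr 1
        ring
      rw [e1]
      nlinarith)
    linarith
  · apply le_of_forall_pos_le_add
    intro e he
    have t1 := big_typ (s := s) (r := c + lam s - e / 2) h0 h1.le hx (by linarith) (by linarith)
    have t3 := le_lgd_of_typ s hx.1 (2 * (c + lam s - e / 2)) (by
      refine typ_mono t1 ?_
      refine Eventually.of_forall fun k ω hω f1 => ?_
      have h2 := f1 (fun _ => 1)
      rw [quad_one] at h2
      have hvv : (fun _ => (1 : ℝ) : Fin 1 → ℝ) ⬝ᵥ (fun _ => 1) = 1 := by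
        simp only [dotProduct, Fin.sum_univ_one, mul_one]
      rw [hvv, mul_one, one_pow, mul_one] at h2
      have h6 : GG (S.dl 1 k) ((x k).g ω) (ptf s k ((x k).l.p.π ω)) =
        1 + Jf (S.dl 1 k) ((x k).g ω) (ptf s k ((x k).l.p.π ω)) 0 0 := det_one' _
      rw [h6]
      have h7 : (2 : ℝ) ^ (2 * (c + lam s - e / 2) * (S.F k).n) ≤
        Jf (S.dl 1 k) ((x k).g ω) (ptf s k ((x k).l.p.π ω)) 0 0 := h2
      linarith)
    linarith

end

end Pool.Agent.Helper59.GR
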