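import Pool.Agent.Helper59.GR.Low
import Pool.Agent.Helper19.S12.Win
import Pool.Agent.Helper40.NSK.Gdi

/-! Sheets of coordinates are forms: `HH (SJ i J) s c σ` implies `HfE s D (Pi.single i 1) c σ` and `Hf s D c σ` for
`1 ≤ D`. -/

set_option autoImplicit false

namespace Pool.Agent.Helper59.GR

open Finset Filter Topology Matrix Pool.Agent.Helper69.RK Pool.Agent.Helper31.EC Pool.Agent.Helper31.EC.Sp
open MvPolynomial Pool.Agent.Helper40.EL Pool.Agent.Helper95.LF Pool.Agent.Helper3.LF Pool.Agent.Helper48.NS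
open Pool.Agent.Helper89.LX Pool.Agent.Helper3.PR Pool.Agent.Helper42.NS Pool.Agent.Helper52.SL
open Pool.Agent.Helper91.GR (Cf SJ Sht dfl Sht_of_HH)
open Pool.Agent.Helper40.NSK (HfE GDe)

noncomputable section

section pol

variable {m : ℕ}

/-- the affine function `p_i - f_0 - Σ_J f_j p_j` -/
def shp (i : Fin m) (J : Finset (Fin (m + 1))) (f : Cf (m + 1)) : MvPolynomial (Fin (m + 1)) ℝ :=
  X i.succ - (C f.1 + ∑ j ∈ J, C (f.2 j) * X j)

theorem shp_deg (i : Fin m) (J : Finset (Fin (m + 1))) (f : Cf (m + 1)) : (shp i J f).totalDegree ≤ 1 := by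
  have h1 : (X i.succ : MvPolynomial (Fin (m + 1)) ℝ).totalDegree ≤ 1 := (totalDegree_X _).le
  have h2 : (C f.1 : MvPolynomial (Fin (m + 1)) ℝ).totalDegree ≤ 1 := by rw [totalDegree_C]; exact zero_le_one
  have h3 : (∑ j ∈ J, C (f.2 j) * X j : MvPolynomial (Fin (m + 1)) ℝ).totalDegree ≤ 1 := by
    refine totalDegree_finsetSum_le fun j _ => ?_
    refine (totalDegree_mul _ _).trans ?_
    rw [totalDegree_C, zero_add]
    exact (totalDegree_X _).le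
  unfold shp
  exact (totalDegree_sub _ _).trans (max_le h1 ((totalDegree_add _ _).trans (max_le h2 h3)))

theorem eval_shp (i : Fin m) (J : Finset (Fin (m + 1))) (f : Cf (m + 1)) (p : Fin (m + 1) → ℝ) :
    eval p (shp i J f) = p i.succ - Pool.Agent.Helper91.GR.aff J f p := by
  unfold shp Pool.Agent.Helper91.GR.aff
  simp

theorem pderiv_shp (i : Fin m) (J : Finset (Fin (m + 1))) (hi : i.succ ∉ J) (f : Cf (m + 1)) :
    pderiv i.succ (shp i J f) = 1 := by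
  unfold shp
  rw [map_sub, map_add, pderiv_C, zero_add, pderiv_X_self, map_sum, Finset.sum_eq_zero, sub_zero]
  intro j hj
  have hne : j ≠ i.succ := fun h => hi (by rw [← h]; exact hj)
  rw [pderiv_C_mul, pderiv_X, Pi.single_eq_of_ne hne, mul_zero]

open Classical in
/-- its coefficients -/
def shc (D : ℕ) (i : Fin m) (J : Finset (Fin (m + 1))) (f : Cf (m + 1)) : Mon (m + 1) D → ℝ :=
  if h : 1 ≤ D then (exists_pol _ ((shp_deg i J f).trans h)).choose else 0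

theorem pol_shc {D : ℕ} (hD : 1 ≤ D) (i : Fin m) (J : Finset (Fin (m + 1))) (f : Cf (m + 1)) :
    pol (shc D i J f) = shp i J f := by
  unfold shc
  rw [dif_pos hD]
  exact (exists_pol _ ((shp_deg i J f).trans hD)).choose_spec.symm

/-- the form of the sheet -/
def shm (D : ℕ) (w : ℝ) (i : Fin m) (J : Finset (Fin (m + 1))) (f : Cf (m + 1)) :
    Matrix (Mon (m + 1) D) (Mon (m + 1) D) ℝ := 1 + rk1 w (shc D i J f)

theorem shm_symm (D : ℕ) (w : ℝ) (i : Fin m) (J : Finset (Fin (m + 1))) (f : Cf (m + 1)) : (shm D w i J f).IsSymm :=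
  Matrix.isSymm_one.add (rk1_symm _ _)

theorem qf_shm (D : ℕ) (w : ℝ) (i : Fin m) (J : Finset (Fin (m + 1))) (f : Cf (m + 1)) (v : Mon (m + 1) D → ℝ) :
    v ⬝ᵥ (shm D w i J f *ᵥ v) = v ⬝ᵥ v + w * (shc D i J f ⬝ᵥ v) ^ 2 := by
  unfold shm
  rw [Matrix.add_mulVec, dotProduct_add, Matrix.one_mulVec, qf_rk1]

theorem shm_one_le (D : ℕ) {w : ℝ} (hw : 0 ≤ w) (i : Fin m) (J : Finset (Fin (m + 1))) (f : Cf (m + 1))
    (v : Mon (m + 1) D → ℝ) : v ⬝ᵥ v ≤ qf (shm D w i J f) v := by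
  show _ ≤ v ⬝ᵥ (shm D w i J f *ᵥ v)
  rw [qf_shm]
  exact le_add_of_nonneg_right (mul_nonneg hw (sq_nonneg _))

theorem shm_phi {D : ℕ} (hD : 1 ≤ D) (r w : ℝ) (i : Fin m) (J : Finset (Fin (m + 1))) (f : Cf (m + 1))
    (p : Fin (m + 1) → ℝ) :
    phi r (shm D w i J f) p = phi r (1 : Matrix (Mon (m + 1) D) (Mon (m + 1) D) ℝ) p + w * ph D (shp i J f) r p := by
  unfold shm
  rw [phi_add, phi_rk1, pol_shc hD]

/-- the derivative in the direction `i` -/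
theorem shc_Wd {D : ℕ} (hD : 1 ≤ D) (i : Fin m) (J : Finset (Fin (m + 1))) (hi : i.succ ∉ J) (f : Cf (m + 1))
    (p : Fin (m + 1) → ℝ) : shc D i J f ⬝ᵥ (Wd m D p *ᵥ (Pi.single i 1 : Fin m → ℝ)) = 1 := by
  rw [← eval_dir, pol_shc hD]
  unfold dir
  rw [map_sum, Finset.sum_eq_single i]
  · rw [map_mul, pderiv_shp i J hi, map_one, eval_C, mul_one, Pi.single_eq_same]
  · intro b _ hb
    rw [map_mul, eval_C, Pi.single_eq_of_ne hb, zero_mul]
  · intro h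
    exact absurd (Finset.mem_univ _) h

/-- the gradient of the form in the direction `i` is large -/
theorem shm_Jf {D : ℕ} (hD : 1 ≤ D) {w : ℝ} (hw : 0 ≤ w) (r : ℝ) (i : Fin m) (J : Finset (Fin (m + 1)))
    (hi : i.succ ∉ J) (f : Cf (m + 1)) (p : Fin (m + 1) → ℝ) :
    w ≤ (Pi.single i 1 : Fin m → ℝ) ⬝ᵥ (Jf r (shm D w i J f) p *ᵥ (Pi.single i 1 : Fin m → ℝ)) := by
  rw [Jf_qf]
  obtain ⟨j0, -⟩ : ∃ j0 : Fin (m + 1) → Fin (D + 1), True := ⟨fun _ => 0, trivial⟩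
  have h1 : ∀ j : Fin (m + 1) → Fin (D + 1),
      w ≤ qf (shm D w i J f) (Wd m D (nodp D p r j) *ᵥ (Pi.single i 1 : Fin m → ℝ)) := fun j => by
    show w ≤ _ ⬝ᵥ (shm D w i J f *ᵥ _)
    rw [qf_shm, shc_Wd hD i J hi]
    have := dot_self_nonneg (Wd m D (nodp D p r j) *ᵥ (Pi.single i 1 : Fin m → ℝ))
    linarith
  refine (h1 j0).trans ?_
  exact Finset.single_le_sum (f := fun j : Fin (m + 1) → Fin (D + 1) =>
    qf (shm D w i J f) (Wd m D (nodp D p r j) *ᵥ (Pi.single i 1 : Fin m → ℝ)))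
    (fun j _ => hw.trans (h1 j)) (Finset.mem_univ j0)

/-- the size of the affine function on the cell -/
theorem ph_shp_le (D : ℕ) (r M B : ℝ) (hr : 0 ≤ r) (i : Fin m) (J : Finset (Fin (m + 1))) (f : Cf (m + 1))
    (p : Fin (m + 1) → ℝ) (hM0 : 0 ≤ M) (hM : ∀ j, |f.2 j| ≤ M) (h : |eval p (shp i J f)| ≤ B) :
    ph D (shp i J f) r p ≤ nn (m + 1) D * (B + r * (1 + ((m + 1 : ℕ) : ℝ) * M)) ^ 2 := by
  unfold ph
  refine (Finset.sum_le_card_nsmul _ _ ((B + r * (1 + ((m + 1 : ℕ) : ℝ) * M)) ^ 2) fun j _ => ?_).trans (le_of_eq ?_)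
  · rw [← sq_abs]
    apply pow_le_pow_left₀ (abs_nonneg _)
    rw [eval_shp] at h ⊢
    have e1 : nodp D p r j i.succ - Pool.Agent.Helper91.GR.aff J f (nodp D p r j) =
        (p i.succ - Pool.Agent.Helper91.GR.aff J f p) + r * (nod D (j i.succ) - ∑ l ∈ J, f.2 l * nod D (j l)) := by
      unfold Pool.Agent.Helper91.GR.aff nodp
      have e2 : ∑ l ∈ J, f.2 l * (p l + r * nod D (j l)) = ∑ l ∈ J, f.2 l * p l + r * ∑ l ∈ J, f.2 l * nod D (j l) := by
        rw [Finset.mul_sum, ← Finset.sum_add_distrib]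
        exact Finset.sum_congr rfl fun l _ => by ring
      rw [e2]
      ring
    rw [e1]
    refine (abs_add_le _ _).trans (add_le_add h ?_)
    rw [abs_mul, abs_of_nonneg hr]
    apply mul_le_mul_of_nonneg_left _ hr
    have h1 := nod_nonneg D (j i.succ)
    have h2 := nod_le D (j i.succ) (Nat.le_of_lt_succ (j i.succ).2)
    refine (abs_sub _ _).trans ?_
    rw [abs_of_nonneg h1]
    refine add_le_add h2 ?_
    refine (Finset.abs_sum_le_sum_abs _ _).trans ?_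
    have h3 : ∀ l ∈ J, |f.2 l * nod D (j l)| ≤ M := fun l _ => by
      have h4 := nod_nonneg D (j l)
      have h5 := nod_le D (j l) (Nat.le_of_lt_succ (j l).2)
      rw [abs_mul, abs_of_nonneg h4]
      calc |f.2 l| * nod D (j l) ≤ M * 1 := mul_le_mul (hM l) h5 h4 hM0
        _ = M := mul_one M
    refine (Finset.sum_le_card_nsmul _ _ _ h3).trans ?_
    rw [nsmul_eq_mul]
    apply mul_le_mul_of_nonneg_right _ hM0
    have h6 := Finset.card_le_univ J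
    rw [Fintype.card_fin] at h6
    exact_mod_cast h6
  · rw [nsmul_eq_mul, card_nodes]

end pol

variable {S : Sp} {m : ℕ} {s : Sys S m}

/-- **BRIDGE**: sheets of a coordinate are forms with a large derivative in this direction -/
theorem HfE_of_SJ {D : ℕ} (hD : 1 ≤ D) {i : Fin m} {J : Finset (Fin (m + 1))} (hi : i.succ ∉ J) {c σ : ℝ}
    (h : HH (SJ i J) s c σ) : HfE s D (Pi.single i 1) c σ := by
  have hσ : σ ≤ 1 := Pool.Agent.Helper19.S12.HH_le_one h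
  obtain ⟨l, v, hl, hm, K, hK, hv, hT⟩ := Sht_of_HH h
  have hl' : l.DM (cA s c) (cB s) := hl
  obtain ⟨K0, hK0, hone⟩ := (gau s D).one
  have hnn := nn_one (m + 1) D
  obtain ⟨A, hA⟩ : ∃ A : ∀ k, (l k).T.Ω → Matrix (Mon (m + 1) D) (Mon (m + 1) D) ℝ,
      A = fun k ω => shm D ((S.dl σ k ^ 2)⁻¹) i J (v k ω) := ⟨_, rfl⟩
  have hAm : ∀ k ω ω', (l k).T.μ ω ≠ 0 → (l k).T.μ ω' ≠ 0 → (l k).V ω ω' → (l k).T.Z ω ω' → A k ω = A k ω' :=
    fun k ω ω' a b c d => by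
      rw [hA]
      show shm D _ i J (v k ω) = shm D _ i J (v k ω')
      rw [hm k ω ω' a b c d]
  have h1 : ∀ᶠ k in UF, ∀ ω, (l k).T.μ ω ≠ 0 → (A k ω).IsSymm ∧ ∀ x, x ⬝ᵥ x ≤ qf (A k ω) x :=
    Eventually.of_forall fun k ω _ => by
      rw [hA]
      exact ⟨shm_symm _ _ _ _ _, fun x => shm_one_le _ (by positivity) _ _ _ x⟩
  obtain ⟨K2, hK2d⟩ : ∃ K2 : ℕ → ℝ, K2 = fun k => K0 k + nn (m + 1) D * (K k + (1 + ((m + 1 : ℕ) : ℝ) * K k)) ^ 2 :=
    ⟨_, rfl⟩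
  have hK2 : S.Sub K2 := by
    rw [hK2d]
    have h0 : (0 : ℝ) ≤ ((m + 1 : ℕ) : ℝ) := Nat.cast_nonneg _
    exact hK0.add ((S.Sub_const (by positivity)).mul (Sub_powN
      (hK.add ((S.Sub_const zero_le_one).add ((S.Sub_const h0).mul hK))) 2))
  have hT' : Sp.Typ (S := l.sp) (fun k (ω : (l k).T.Ω) => (gau s D).φ k ((l k).p.π ω) (A k ω) ≤ K2 k) := by
    refine typ_mono (S := l.sp) hT ?_
    filter_upwards [hone, hv, hK.1] with k h1 h2 h3 ω hω h4
    rw [hA, hK2d]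
    show phi (S.dl 1 k) (shm D ((S.dl σ k ^ 2)⁻¹) i J (v k ω)) (ptf s k ((l k).p.π ω)) ≤ _
    rw [shm_phi hD]
    have hω' := (l k).p.supp ω hω
    have h5 : phi (S.dl 1 k) (1 : Matrix (Mon (m + 1) D) (Mon (m + 1) D) ℝ) (ptf s k ((l k).p.π ω)) ≤ K0 k := h1 _ hω'
    refine add_le_add h5 ?_
    have hd1 := S.dl_pos 1 k
    have hds := S.dl_pos σ k
    have hd1s : S.dl 1 k ≤ S.dl σ k := S.dl_anti hσ k
    have h6 : |MvPolynomial.eval (ptf s k ((l k).p.π ω)) (shp i J (v k ω))| ≤ K k * S.dl σ k := by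
      rw [eval_shp]
      exact h4
    have h7 := ph_shp_le D (S.dl 1 k) (K k) (K k * S.dl σ k) hd1.le i J (v k ω) (ptf s k ((l k).p.π ω)) h3
      (h2 ω hω) h6
    rw [inv_mul_le_iff₀ (by positivity)]
    refine h7.trans ?_
    have h0 : (0 : ℝ) ≤ ((m + 1 : ℕ) : ℝ) := Nat.cast_nonneg _
    have h8 : S.dl 1 k * (1 + ((m + 1 : ℕ) : ℝ) * K k) ≤ S.dl σ k * (1 + ((m + 1 : ℕ) : ℝ) * K k) :=
      mul_le_mul_of_nonneg_right hd1s (by positivity)
    have a4 : K k * S.dl σ k + S.dl 1 k * (1 + ((m + 1 : ℕ) : ℝ) * K k) ≤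
        (K k + (1 + ((m + 1 : ℕ) : ℝ) * K k)) * S.dl σ k := by linarith
    have a5 := pow_le_pow_left₀ (by positivity) a4 2
    calc nn (m + 1) D * (K k * S.dl σ k + S.dl 1 k * (1 + ((m + 1 : ℕ) : ℝ) * K k)) ^ 2 ≤
        nn (m + 1) D * ((K k + (1 + ((m + 1 : ℕ) : ℝ) * K k)) * S.dl σ k) ^ 2 :=
          mul_le_mul_of_nonneg_left a5 (by linarith)
      _ = _ := by ring
  refine ⟨cutFD (gau s D) l A hAm, cut_ad l hl' A hAm h1 K2 hK2 hT', fun e he => ?_⟩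
  have hc := cut_typ l A h1 K2 hK2 hT'
  refine tendsto_of_tendsto_of_tendsto_of_le_of_le' tendsto_const_nhds ((typ_iff l _).mp hc)
    (Eventually.of_forall fun k => (l k).T.pb_nonneg _) (Eventually.of_forall fun k => ?_)
  apply (l k).T.pb_mono
  intro ω _ h2 h3
  apply h2
  show 2 ^ (2 * (σ - e) * (S.F k).n) ≤ (Pi.single i 1 : Fin m → ℝ) ⬝ᵥ
    (Jf (S.dl 1 k) (cutm ((gau s D).cp k) (A k ω)) (ptf s k ((l k).p.π ω)) *ᵥ (Pi.single i 1 : Fin m → ℝ))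
  unfold cutm
  rw [if_pos h3, hA]
  refine le_trans ?_ (shm_Jf hD (by positivity) (S.dl 1 k) i J hi (v k ω) (ptf s k ((l k).p.π ω)))
  rw [dl_inv_sq]
  apply Real.rpow_le_rpow_of_exponent_le (by norm_num)
  have := (S.F k).pos
  nlinarith

/-- forms with a large derivative in one direction -/
theorem Hf_of_HfE {D : ℕ} {i : Fin m} {c σ : ℝ} (h : HfE s D (Pi.single i 1) c σ) : Hf s D c σ := by
  obtain ⟨x, hx, hl⟩ := h
  refine ⟨x, hx, fun e he => ?_⟩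
  refine tendsto_of_tendsto_of_tendsto_of_le_of_le' tendsto_const_nhds (hl e he)
    (Eventually.of_forall fun k => (x k).l.T.pb_nonneg _) ?_
  filter_upwards [hx 1 one_pos] with k hk
  apply (x k).l.T.pb_mono
  intro ω hω h1 h2
  apply h1
  refine h2.trans ?_
  have hA : ∀ v, 0 ≤ v ⬝ᵥ ((x k).g ω *ᵥ v) := fun v => (dot_self_nonneg v).trans ((hk.2.2.1 ω hω).1.2.1 v)
  have h3 := trJ_le_gam (S.dl 1 k) hA (ptf s k ((x k).l.p.π ω))
  refine le_trans ?_ h3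
  rw [Pool.Agent.Helper40.NSK.trJ_eq]
  refine Finset.single_le_sum (f := fun i : Fin m => (Pi.single i (1 : ℝ) : Fin m → ℝ) ⬝ᵥ
    (Jf (S.dl 1 k) ((x k).g ω) (ptf s k ((x k).l.p.π ω)) *ᵥ Pi.single i 1)) (fun i' _ => ?_) (Finset.mem_univ i)
  rw [Jf_qf]
  exact Finset.sum_nonneg fun j _ => hA _

/-- sheets of coordinates are forms of degree `D` -/
theorem Hf_of_SJD {D : ℕ} (hD : 1 ≤ D) {i : Fin m} {J : Finset (Fin (m + 1))} (hi : i.succ ∉ J) {c σ : ℝ}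
    (h : HH (SJ i J) s c σ) : Hf s D c σ := Hf_of_HfE (HfE_of_SJ hD hi h)

/-- sheets of coordinates are forms of degree 1 -/
theorem Hf_of_SJ {i : Fin m} {J : Finset (Fin (m + 1))} (hi : i.succ ∉ J) {c σ : ℝ} (h : HH (SJ i J) s c σ) :
    Hf s 1 c σ := Hf_of_SJD le_rfl hi h

end

end Pool.Agent.Helper59.GR
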