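import Pool.Agent.Helper59.GR.One
import Pool.Agent.Helper3.LF.Spa

/-! The form of a box: all space coordinates are given up to a thickness as affine functions of the height. -/

set_option autoImplicit false

namespace Pool.Agent.Helper59.GR

open MvPolynomial Matrix Pool.Agent.Helper95.LF Pool.Agent.Helper3.LF Pool.Agent.Helper48.NS Pool.Agent.Helper89.LX

noncomputable section

variable {m : ℕ}

/-- the affine function `y_i - q_i - x_i (t - t0)` -/
def aff (q x : Fin m → ℝ) (t0 : ℝ) (i : Fin m) : MvPolynomial (Fin (m + 1)) ℝ :=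
  X i.succ - C (q i) - C (x i) * (X 0 - C t0)

theorem aff_deg (q x : Fin m → ℝ) (t0 : ℝ) (i : Fin m) : (aff q x t0 i).totalDegree ≤ 1 := by
  have h1 : (X i.succ : MvPolynomial (Fin (m + 1)) ℝ).totalDegree ≤ 1 := (totalDegree_X _).le
  have h2 : (C (q i) : MvPolynomial (Fin (m + 1)) ℝ).totalDegree ≤ 1 := by rw [totalDegree_C]; exact zero_le_one
  have h3 : (X 0 - C t0 : MvPolynomial (Fin (m + 1)) ℝ).totalDegree ≤ 1 := by
    refine (totalDegree_sub _ _).trans (max_le (totalDegree_X _).le ?_)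
    rw [totalDegree_C]; exact zero_le_one
  have h4 : (C (x i) * (X 0 - C t0) : MvPolynomial (Fin (m + 1)) ℝ).totalDegree ≤ 1 := by
    refine (totalDegree_mul _ _).trans ?_
    rw [totalDegree_C, zero_add]
    exact h3
  unfold aff
  exact (totalDegree_sub _ _).trans (max_le ((totalDegree_sub _ _).trans (max_le h1 h2)) h4)

/-- its coefficients -/
def afc (q x : Fin m → ℝ) (t0 : ℝ) (i : Fin m) : Mon (m + 1) 1 → ℝ := (exists_pol _ (aff_deg q x t0 i)).choose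

theorem pol_afc (q x : Fin m → ℝ) (t0 : ℝ) (i : Fin m) : pol (afc q x t0 i) = aff q x t0 i :=
  (exists_pol _ (aff_deg q x t0 i)).choose_spec.symm

theorem eval_aff (q x : Fin m → ℝ) (t0 : ℝ) (i : Fin m) (p : Fin (m + 1) → ℝ) :
    eval p (aff q x t0 i) = p i.succ - q i - x i * (p 0 - t0) := by
  unfold aff
  simp

theorem pderiv_aff (q x : Fin m → ℝ) (t0 : ℝ) (i a : Fin m) :
    pderiv a.succ (aff q x t0 i) = if a = i then 1 else 0 := by
  have h0 : pderiv a.succ (X 0 : MvPolynomial (Fin (m + 1)) ℝ) = 0 := by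
    rw [pderiv_X, Pi.single_eq_of_ne (Fin.succ_ne_zero a).symm]
  unfold aff
  rw [map_sub, map_sub, pderiv_C, sub_zero, pderiv_C_mul, map_sub, pderiv_C, sub_zero, h0, mul_zero, sub_zero]
  by_cases h : a = i
  · subst h
    rw [pderiv_X_self, if_pos rfl]
  · rw [pderiv_X, Pi.single_eq_of_ne (fun h' => h (Fin.succ_injective _ h').symm), if_neg h]

theorem afc_Wd (q x : Fin m → ℝ) (t0 : ℝ) (i : Fin m) (e : Fin m → ℝ) (p : Fin (m + 1) → ℝ) :
    afc q x t0 i ⬝ᵥ (Wd m 1 p *ᵥ e) = e i := by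
  rw [← eval_dir, pol_afc]
  unfold dir
  rw [map_sum, Finset.sum_eq_single i]
  · rw [map_mul, pderiv_aff, if_pos rfl, map_one, eval_C, mul_one]
  · intro b _ hb
    rw [map_mul, pderiv_aff, if_neg hb, map_zero, mul_zero]
  · intro h
    exact absurd (Finset.mem_univ _) h

/-- the form of the box -/
def bxm (w : ℝ) (q x : Fin m → ℝ) (t0 : ℝ) : Matrix (Mon (m + 1) 1) (Mon (m + 1) 1) ℝ :=
  1 + ∑ i, rk1 w (afc q x t0 i)

theorem sum_symm {ι κ : Type} (M : κ → Matrix ι ι ℝ) (s : Finset κ) (h : ∀ k, (M k).IsSymm) :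
    (∑ k ∈ s, M k).IsSymm := by
  unfold Matrix.IsSymm
  rw [Matrix.transpose_sum]
  exact Finset.sum_congr rfl fun k _ => h k

theorem bxm_symm (w : ℝ) (q x : Fin m → ℝ) (t0 : ℝ) : (bxm w q x t0).IsSymm :=
  Matrix.isSymm_one.add (sum_symm _ _ fun _ => rk1_symm _ _)

theorem qf_bxm (w : ℝ) (q x : Fin m → ℝ) (t0 : ℝ) (v : Mon (m + 1) 1 → ℝ) :
    qf (bxm w q x t0) v = v ⬝ᵥ v + ∑ i, w * (afc q x t0 i ⬝ᵥ v) ^ 2 := by
  unfold bxm qf
  rw [Matrix.add_mulVec, dotProduct_add, Matrix.one_mulVec, dv_sum]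
  congr 1
  exact Finset.sum_congr rfl fun i _ => qf_rk1 _ _ _

theorem bxm_one_le {w : ℝ} (hw : 0 ≤ w) (q x : Fin m → ℝ) (t0 : ℝ) (v : Mon (m + 1) 1 → ℝ) :
    v ⬝ᵥ v ≤ qf (bxm w q x t0) v := by
  rw [qf_bxm]
  exact le_add_of_nonneg_right (Finset.sum_nonneg fun i _ => mul_nonneg hw (sq_nonneg _))

theorem phi_sum (r : ℝ) {N D : ℕ} {κ : Type} (M : κ → Matrix (Mon N D) (Mon N D) ℝ) (s : Finset κ) (p : Fin N → ℝ) :
    phi r (∑ k ∈ s, M k) p = ∑ k ∈ s, phi r (M k) p := by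
  classical
  induction s using Finset.induction_on with
  | empty =>
    unfold phi
    simp
  | insert a s ha ih => rw [Finset.sum_insert ha, Finset.sum_insert ha, phi_add, ih]

theorem bxm_phi (r w : ℝ) (q x : Fin m → ℝ) (t0 : ℝ) (p : Fin (m + 1) → ℝ) :
    phi r (bxm w q x t0) p = phi r (1 : Matrix (Mon (m + 1) 1) (Mon (m + 1) 1) ℝ) p +
      ∑ i, w * ph 1 (aff q x t0 i) r p := by
  unfold bxm
  rw [phi_add, phi_sum]
  congr 1
  refine Finset.sum_congr rfl fun i _ => ?_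
  rw [phi_rk1, pol_afc]

/-- the block of the space variables is large -/
theorem bxm_Jf {w : ℝ} (hw : 0 ≤ w) (r : ℝ) (q x : Fin m → ℝ) (t0 : ℝ) (p : Fin (m + 1) → ℝ) (e : Fin m → ℝ) :
    w * (e ⬝ᵥ e) ≤ e ⬝ᵥ (Jf r (bxm w q x t0) p *ᵥ e) := by
  rw [Jf_one, qf_bxm]
  have h1 : ∑ i, w * (afc q x t0 i ⬝ᵥ (Wd m 1 0 *ᵥ e)) ^ 2 = w * (e ⬝ᵥ e) := by
    unfold dotProduct
    rw [Finset.mul_sum]
    refine Finset.sum_congr rfl fun i _ => ?_
    have h2 := afc_Wd q x t0 i e 0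
    unfold dotProduct at h2
    rw [h2]
    ring
  rw [h1]
  have h2 := nn_one (m + 1) 1
  have h3 := dot_self_nonneg (Wd m 1 0 *ᵥ e)
  have h4 := mul_nonneg hw (dot_self_nonneg e)
  nlinarith

/-- the size of the affine functions on the cell -/
theorem ph_aff_le (r M B : ℝ) (hr : 0 ≤ r) (q x : Fin m → ℝ) (t0 : ℝ) (i : Fin m) (p : Fin (m + 1) → ℝ)
    (hM : |x i| ≤ M) (h : |eval p (aff q x t0 i)| ≤ B) :
    ph 1 (aff q x t0 i) r p ≤ nn (m + 1) 1 * (B + r * (1 + M)) ^ 2 := by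
  unfold ph
  refine (Finset.sum_le_card_nsmul _ _ ((B + r * (1 + M)) ^ 2) fun j _ => ?_).trans (le_of_eq ?_)
  · rw [← sq_abs]
    apply pow_le_pow_left₀ (abs_nonneg _)
    rw [eval_aff] at h ⊢
    have e1 : nodp 1 p r j i.succ - q i - x i * (nodp 1 p r j 0 - t0) =
        (p i.succ - q i - x i * (p 0 - t0)) + r * (nod 1 (j i.succ) - x i * nod 1 (j 0)) := by
      unfold nodp
      ring
    rw [e1]
    refine (abs_add_le _ _).trans (add_le_add h ?_)
    rw [abs_mul, abs_of_nonneg hr]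
    apply mul_le_mul_of_nonneg_left _ hr
    have h1 := nod_nonneg 1 (j i.succ)
    have h2 := nod_le 1 (j i.succ) (Nat.le_of_lt_succ (j i.succ).2)
    have h3 := nod_nonneg 1 (j 0)
    have h4 := nod_le 1 (j 0) (Nat.le_of_lt_succ (j 0).2)
    refine (abs_sub _ _).trans ?_
    rw [abs_of_nonneg h1, abs_mul, abs_of_nonneg h3]
    have h5 : |x i| * nod 1 (j 0) ≤ M * 1 := mul_le_mul hM h4 h3 ((abs_nonneg _).trans hM)
    linarith
  · rw [nsmul_eq_mul, card_nodes]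

end

end Pool.Agent.Helper59.GR
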