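import Pool.Agent.Helper59.GR.Vel
import Pool.Agent.Helper59.EV.FdgS
import Pool.Agent.Helper52.SL.Prf

/-! The smallest exponent of the space block of forms of degree 1: upper bound by the number of known digits of the
velocity. -/

set_option autoImplicit false

namespace Pool.Agent.Helper59.GR

open Finset Filter Topology Matrix Pool.Agent.Helper69.RK Pool.Agent.Helper31.EC Pool.Agent.Helper31.EC.Sp
open Pool.Agent.Helper40.EL Pool.Agent.Helper95.LF Pool.Agent.Helper3.LF Pool.Agent.Helper48.NS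
open Pool.Agent.Helper89.LX Pool.Agent.Helper3.PR Pool.Agent.Helper42.NS Pool.Agent.Helper52.SL
open Pool.Agent.Helper59.EV (sum_rest)

noncomputable section

variable {S : Sp} {m : ℕ} {s : Sys S m}

/-! ### restriction of a label with forms to an event of its own space -/

section
variable {ι : Type} [Fintype ι] [DecidableEq ι]

/-- restriction to an event of the space of the label -/
def rstFD {F : FSp} (y : FD F ι) (E : y.l.T.Ω → Prop) : FD (FSp.im y.l.p E) ι where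
  l := y.l.im E
  g := y.g
  g' := y.g'
  meas := fun ω ω' a b c d => y.meas ω ω' ((y.l.T.rest_supp E ω a).1) ((y.l.T.rest_supp E ω' b).1) c d

/-- restriction of a sequence -/
def rstS (y : ∀ k, FD (S.F k) ι) (E : ∀ k, (y k).l.T.Ω → Prop) : ∀ k, FD ((Sp.im (lb y).pj E).F k) ι :=
  fun k => rstFD (y k) (E k)

theorem pb_rest_le (F : FSp) (E Q : F.Ω → Prop) : F.pb E * (F.rest E).pb Q ≤ F.pb Q := by
  have h1 := sum_rest F E (fun ω => e1_ind (Q ω))
  have h2 : ∀ G : FSp, ∀ Q : G.Ω → Prop, G.pb Q = ∑ ω, G.μ ω * e1_ind (Q ω) := by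
    intro G Q
    unfold FSp.pb mass
    apply Finset.sum_congr rfl
    intro ω _
    by_cases h : Q ω
    · rw [res_pos _ _ _ h, e1_ind_pos h, mul_one]
    · rw [res_neg _ _ _ h, e1_ind_neg h, mul_zero]
  have h3 : (F.rest E).pb Q = ∑ ω, (F.rest E).μ ω * e1_ind (Q ω) := h2 (F.rest E) Q
  have h4 : 0 ≤ ∑ ω, (F.rest fun ω => ¬ E ω).μ ω * e1_ind (Q ω) :=
    Finset.sum_nonneg fun ω _ => mul_nonneg ((F.rest fun ω => ¬ E ω).nn ω) (ind_nonneg _)
  have h5 := mul_nonneg (sub_nonneg.mpr (F.pb_le_one E)) h4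
  rw [h3, h2 F Q, h1]
  linarith

end

/-- restrictions of admissible sequences are admissible -/
theorem Ad_rst {D : ℕ} {A B : Part S} (s : Sys S m) {y : ∀ k, FD (S.F k) (Mon (m + 1) D)}
    (hy : (gau s D).Ad A B y) (E : ∀ k, (y k).l.T.Ω → Prop) (hE : 0 < ul ((lb y).sp.pr E)) :
    (gau (s.im (lb y).pj E hE) D).Ad (A.im (lb y).pj E) (B.im (lb y).pj E) (rstS y E) := by
  intro η hη
  obtain ⟨r, hr⟩ : ∃ r : ℝ, r = ul ((lb y).sp.pr E) := ⟨_, rfl⟩
  have hr1 : r ≤ 1 := hr ▸ ul_pr_le_one (S := (lb y).sp) E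
  have hr0 : 0 < r := hr ▸ hE
  have hhalf : ∀ᶠ k in UF, r / 2 ≤ (lb y).sp.pr E k := hr ▸ pr_half' (S := (lb y).sp) hE
  have hη' : 0 < η * r / 4 := by positivity
  have hle : η * r / 4 ≤ η := by nlinarith
  have hnk : ∀ᶠ k in UF, (4 / (η * r) : ℝ) ≤ (S.F k).n := S.lim.eventually (eventually_ge_atTop _)
  filter_upwards [hy _ hη', hhalf, hnk] with k hk hp hn
  have hn0 := (S.F k).pos
  have hpb : r / 2 ≤ (y k).l.T.pb (E k) := hp
  have h4 : 4 ≤ (η * r) * (S.F k).n := by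
    rw [div_le_iff₀ (by positivity)] at hn
    linarith
  have hthr : (2 : ℝ) ^ (η * r / 4 * (S.F k).n) ≤ 2 ^ (η * (S.F k).n) :=
    Real.rpow_le_rpow_of_exponent_le (by norm_num) (mul_le_mul_of_nonneg_right hle hn0.le)
  have leak : ∀ X : Part S, (y k).l.leak (X k) ≤ η * r / 4 * (S.F k).n →
      (rstS y E k).l.leak ((X.im (lb y).pj E) k) ≤ η * (S.F k).n := by
    intro X hX
    have h1 : (y k).l.T.pb (E k) * (rstS y E k).l.leak ((X.im (lb y).pj E) k) ≤ (y k).l.leak (X k) + 1 :=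
      (y k).l.im_leak (E k) (X k)
    have h2 : 0 ≤ (rstS y E k).l.leak ((X.im (lb y).pj E) k) := FLab.leak_nonneg _ _
    have h3 : r / 2 * (rstS y E k).l.leak ((X.im (lb y).pj E) k) ≤ r / 2 * (η * (S.F k).n) := by
      refine (mul_le_mul_of_nonneg_right hpb h2).trans (h1.trans ?_)
      nlinarith
    exact le_of_mul_le_mul_left h3 (by positivity)
  have key : ∀ Q Q' : (y k).l.T.Ω → Prop, (∀ ω, Q ω → Q' ω) → (y k).l.T.pb Q' ≤ η * r / 4 →
      ((y k).l.T.rest (E k)).pb Q ≤ η := by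
    intro Q Q' hQ h5
    have h6 := pb_rest_le (y k).l.T (E k) Q
    have h7 : (y k).l.T.pb Q ≤ (y k).l.T.pb Q' := FSp.pb_mono _ fun ω _ h => hQ ω h
    have h8 : 0 ≤ ((y k).l.T.rest (E k)).pb Q := FSp.pb_nonneg _ _
    have h9 : r / 2 * ((y k).l.T.rest (E k)).pb Q ≤ r / 2 * η := by
      refine (mul_le_mul_of_nonneg_right hpb h8).trans (h6.trans (h7.trans (h5.trans ?_)))
      nlinarith
    exact le_of_mul_le_mul_left h9 (by positivity)
  have hA := leak A hk.1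
  have hB := leak B hk.2.1
  have hC : ∀ ω, ((y k).l.T.rest (E k)).μ ω ≠ 0 → Cpd ((gau s D).cp k) ((y k).g ω) ∧ Cpd ((gau s D).cp k) ((y k).g' ω) :=
    fun w hw => hk.2.2.1 w ((y k).l.T.rest_supp (E k) w hw).1
  have hg : ((y k).l.T.rest (E k)).pb (fun ω => ¬ (gau s D).φ k ((y k).l.p.π ω) ((y k).g ω) ≤
      2 ^ (η * (S.F k).n)) ≤ η :=
    key (fun ω => ¬ (gau s D).φ k ((y k).l.p.π ω) ((y k).g ω) ≤ 2 ^ (η * (S.F k).n))
      (fun ω => ¬ (gau s D).φ k ((y k).l.p.π ω) ((y k).g ω) ≤ 2 ^ (η * r / 4 * (S.F k).n))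
      (fun ω h3 h5 => h3 (le_trans h5 hthr)) hk.2.2.2.1
  have hg' : ((y k).l.T.rest (E k)).pb (fun ω => ¬ (gau s D).φ k ((y k).l.p.π ω) ((y k).g' ω) ≤
      2 ^ (η * (S.F k).n)) ≤ η :=
    key (fun ω => ¬ (gau s D).φ k ((y k).l.p.π ω) ((y k).g' ω) ≤ 2 ^ (η * (S.F k).n))
      (fun ω => ¬ (gau s D).φ k ((y k).l.p.π ω) ((y k).g' ω) ≤ 2 ^ (η * r / 4 * (S.F k).n))
      (fun ω h3 h5 => h3 (le_trans h5 hthr)) hk.2.2.2.2
  exact ⟨hA, hB, hC, hg, hg'⟩

/-! ### the number of known digits of the velocity -/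

/-- restrictions of connected systems are connected -/
theorem ic_im_zero (hi : ic s 0 = 0) {T : Sp} (p : Pj T S) (E : ∀ k, (T.F k).Ω → Prop) (hE : 0 < ul (T.pr E)) :
    ic (s.im p E hE) 0 = 0 := by
  apply le_antisymm _ (ic_nonneg le_rfl zero_le_one)
  by_cases hE' : 0 < ul (T.pr fun k ω => ¬ E k ω)
  · have h1 := Pool.Agent.Helper40.EL.ic_add s p E hE hE' 0
    rw [hi] at h1
    have h2 : 0 ≤ ic (s.im p (fun k ω => ¬ E k ω) hE') 0 := ic_nonneg le_rfl zero_le_one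
    have h3 : ul (T.pr E) ≤ 1 := ul_pr_le_one E
    have h4 := mul_nonneg (sub_nonneg.mpr h3) h2
    have h5 : ul (T.pr E) * ic (s.im p E hE) 0 ≤ 0 := by linarith
    exact nonpos_of_mul_nonpos_right h5 hE
  · have h1 : ul (T.pr fun k ω => ¬ E k ω) = 0 := by
      apply le_antisymm (not_lt.mp hE')
      exact ge_of_tendsto (ul_tendsto (UB_pr (S := T) fun k ω => ¬ E k ω))
        (Eventually.of_forall fun k => (T.F k).pb_nonneg _)
    have h2 : Typ E := by
      have h3 := ul_tendsto (UB_pr (S := T) (fun k ω => ¬ E k ω))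
      rw [h1] at h3
      exact h3
    rw [Pool.Agent.Helper40.EL.ic_typ s p E h2 hE 0, hi]

/-- the entropy of the digits of the velocity does not change on events of positive probability of extensions -/
def RobX (s : Sys S m) : Prop :=
  ∀ (u : ℝ), 0 ≤ u → u ≤ 1 → ∀ (T : Sp) (p : Pj T S) (E : ∀ k, (T.F k).Ω → Prop) (hE : 0 < ul (T.pr E)),
    H ((s.im p E hE).x.dg u) = H (s.x.dg u)

/-- digits of level zero -/
theorem dg_zero (y : S.VV m) : H (y.dg 0) = 0 := by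
  have h1 := y.H_dg_le (le_refl (0 : ℝ))
  rw [mul_zero] at h1
  exact le_antisymm h1 (H_nonneg _)

theorem dg_zero_bot (y : S.VV m) : y.dg 0 = ⊥ := by
  have h1 : h (y.dg 0) ⊥ = 0 := by rw [h_bot, dg_zero]
  exact le_bot_iff.mp (h_le_zero_iff.mp h1.le)

/-- the profile at the point level zero -/
theorem F_zero {u : ℝ} (h1 : u ≤ 1) : s.F u 0 = H (s.x.dg u) := by
  unfold Sys.F
  rw [dg_zero_bot s.P, sup_bot_eq]
  exact s.H_T_cond (s.x_le_xi h1)

theorem robX_of (hp : RobP s) : RobX s := by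
  intro u h0 h1 T p E hE
  have h2 : (s.im p E hE).F u 0 = s.F u 0 := hp u 0 h0 h1 le_rfl zero_le_one T p E hE
  rwa [F_zero h1, F_zero h1] at h2

/-- the number of known digits of the velocity -/
def lam (s : Sys S m) : ℝ := sSup {r | 0 ≤ r ∧ r ≤ 1 ∧ H (s.x.dg r) = 0}

theorem lam_bdd : BddAbove {r | 0 ≤ r ∧ r ≤ 1 ∧ H (s.x.dg r) = 0} := ⟨1, fun _ h => h.2.1⟩

theorem lam_mem : (0 : ℝ) ∈ {r | 0 ≤ r ∧ r ≤ 1 ∧ H (s.x.dg r) = 0} := ⟨le_rfl, zero_le_one, dg_zero s.x⟩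

theorem lam_nonneg : 0 ≤ lam s := le_csSup lam_bdd lam_mem

theorem lam_le_one : lam s ≤ 1 := csSup_le ⟨_, lam_mem⟩ fun _ h => h.2.1

theorem le_lam {r : ℝ} (h0 : 0 ≤ r) (h1 : r ≤ 1) (h : H (s.x.dg r) = 0) : r ≤ lam s := le_csSup lam_bdd ⟨h0, h1, h⟩

theorem H_lt_lam {r : ℝ} (h : r < lam s) : H (s.x.dg r) = 0 := by
  obtain ⟨r', h1, h2⟩ := exists_lt_of_lt_csSup ⟨_, lam_mem⟩ h
  exact le_antisymm (h1.2.2 ▸ H_mono (s.x.dg_mono h2.le)) (H_nonneg _)

/-- the velocity is known to `lam` digits -/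
theorem H_lam : H (s.x.dg (lam s)) = 0 := by
  apply le_antisymm _ (H_nonneg _)
  apply le_of_forall_pos_le_add
  intro e he
  have hm : (0 : ℝ) < m + 1 := by positivity
  have h1 := H_lt_lam (s := s) (r := lam s - e / (m + 1)) (by
    have : 0 < e / (m + 1) := by positivity
    linarith)
  have h2 : lam s - e / (m + 1) ≤ lam s := by
    have : 0 < e / (m + 1) := by positivity
    linarith
  have h3 := s.x.h_dg_dg h2
  have h4 : H (s.x.dg (lam s)) = H (s.x.dg (lam s - e / (m + 1))) + h (s.x.dg (lam s)) (s.x.dg (lam s - e / (m + 1))) := by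
    have := H_chain (s.x.dg (lam s - e / (m + 1))) (s.x.dg (lam s))
    rwa [sup_eq_right.mpr (s.x.dg_mono h2)] at this
  have h5 : (m : ℝ) * (lam s - (lam s - e / (m + 1))) ≤ e := by
    have e1 : lam s - (lam s - e / (m + 1)) = e / (m + 1) := by ring
    rw [e1, mul_div_assoc', div_le_iff₀ hm]
    nlinarith
  linarith

theorem rest_pb_not (F : FSp) (E : F.Ω → Prop) (h : 0 < F.pb E) : (F.rest E).pb (fun ω => ¬ E ω) = 0 := by
  unfold FSp.pb mass
  apply Finset.sum_eq_zero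
  intro ω _
  by_cases hb : E ω
  · exact res_neg (F.rest E).μ (fun ω => ¬ E ω) ω (not_not.mpr hb)
  · rw [res_pos (F.rest E).μ (fun ω => ¬ E ω) ω hb]
    by_contra hne
    exact hb ((F.rest_supp E ω hne).2 h.ne')

/-- the space block of the form is at least `2 ^ (2 r n)` in all directions -/
def Big (s : Sys S m) (x : ∀ k, FD (S.F k) (Mon (m + 1) 1)) (r : ℝ) (k : ℕ) (ω : (x k).l.T.Ω) : Prop :=
  ∀ e : Fin m → ℝ, 2 ^ (2 * r * (S.F k).n) * (e ⬝ᵥ e) ≤
    e ⬝ᵥ (Jf (S.dl 1 k) ((x k).g ω) (ptf s k ((x k).l.p.π ω)) *ᵥ e)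

/-- UPPER BOUND of the smallest exponent of the space block: `c + lam` -/
theorem small_typ (hX : RobX s) (hi : ic s 0 = 0) {c r : ℝ} (h0 : 0 ≤ c) (hc1 : c < 1) (hr : c + lam s < r)
    (hr1 : r ≤ c + 1) {x : ∀ k, FD (S.F k) (Mon (m + 1) 1)} (hx : (gau s 1).Ad (cA s c) (cB s) x) :
    Sp.Typ (S := (lb x).sp) (fun k (ω : (x k).l.T.Ω) => ¬ Big s x r k ω) := by
  have hU := UB_pr (S := (lb x).sp) (fun k (ω : (x k).l.T.Ω) => Big s x r k ω)
  have hlim := ul_tendsto hU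
  have h1 : 0 ≤ ul ((lb x).sp.pr (fun k (ω : (x k).l.T.Ω) => Big s x r k ω)) :=
    ge_of_tendsto hlim (Eventually.of_forall fun k => ((x k).l.T).pb_nonneg _)
  rcases h1.eq_or_lt with h2 | h2
  · rw [← h2] at hlim
    refine hlim.congr fun k => ?_
    show (x k).l.T.pb _ = (x k).l.T.pb _
    congr 1
    funext ω
    rw [not_not]
  · exfalso
    have a1 := Ad_rst s hx (fun k ω => Big s x r k ω) h2
    have a2 : (gau (s.im (lb x).pj (fun k ω => Big s x r k ω) h2) 1).Ad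
      (cA (s.im (lb x).pj (fun k ω => Big s x r k ω) h2) c) (cB (s.im (lb x).pj (fun k ω => Big s x r k ω) h2))
      (rstS x (fun k ω => Big s x r k ω)) := a1
    have a3 := vel_known (s := s.im (lb x).pj (fun k ω => Big s x r k ω) h2) (r := r) h0 hc1 a2 (by
      show Tendsto (fun k => ((x k).l.T.rest (fun ω => Big s x r k ω)).pb (fun ω => ¬ Big s x r k ω)) UF (𝓝 0)
      refine tendsto_const_nhds.congr' ?_
      filter_upwards [pr_half' (S := (lb x).sp) h2] with k hk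
      have hk' : ul ((lb x).sp.pr (fun k (ω : (x k).l.T.Ω) => Big s x r k ω)) / 2 ≤
        (x k).l.T.pb (fun ω => Big s x r k ω) := hk
      exact (rest_pb_not (x k).l.T (fun ω => Big s x r k ω) (by linarith)).symm)
    have a4 : DMc (s.im (lb x).pj (fun k ω => Big s x r k ω) h2) c (lb (rstS x (fun k ω => Big s x r k ω))) :=
      Gau.Ad.dm (gau (s.im (lb x).pj (fun k ω => Big s x r k ω) h2) 1) a2
    have a5 := vel_zero (ic_im_zero hi (lb x).pj (fun k ω => Big s x r k ω) h2) (show r - c ≤ 1 by linarith) a4 a3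
    have hlam := lam_nonneg (s := s)
    rw [hX (r - c) (by linarith) (by linarith) (lb x).sp (lb x).pj (fun k ω => Big s x r k ω) h2] at a5
    have a6 := le_lam (s := s) (r := r - c) (by linarith) (by linarith) a5
    linarith

end

end Pool.Agent.Helper59.GR
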