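import Pool.Agent.Helper59.GR.Box
import Pool.Agent.Helper59.GR.Up
import Pool.Agent.Helper3.PR.Prj

/-! The smallest exponent of the space block of forms of degree 1: lower bound by the number of known digits of the
velocity. -/

set_option autoImplicit false

namespace Pool.Agent.Helper59.GR

open Finset Filter Topology Matrix Pool.Agent.Helper69.RK Pool.Agent.Helper31.EC Pool.Agent.Helper31.EC.Sp
open Pool.Agent.Helper40.EL Pool.Agent.Helper95.LF Pool.Agent.Helper3.LF Pool.Agent.Helper48.NS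
open Pool.Agent.Helper89.LX Pool.Agent.Helper3.PR Pool.Agent.Helper42.NS Pool.Agent.Helper52.SL
open Pool.Agent.Helper59.LF (nul_few ladd DM_ladd h_label)

noncomputable section

variable {S : Sp} {m : ℕ} {s : Sys S m}

/-- variables which are known up to subexponential errors both to the line and to the point may be added to labels -/
theorem DMc_few {c : ℝ} {l : Lab S} (hl : DMc s c l) {q : ℕ} (X : ∀ k, (l k).T.Ω → Fin q → ℤ) (C : ℝ) (hC : 0 ≤ C)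
    (hX : ∀ᶠ k in UF, ∀ ω i, (l k).T.μ ω ≠ 0 → |(X k ω i : ℝ)| ≤ 2 ^ (C * (S.F k).n)) (K : ℕ → ℝ) (hK : S.Sub K)
    (hA : ∀ᶠ k in UF, ∀ ω ω', (l k).T.μ ω ≠ 0 → (l k).T.μ ω' ≠ 0 → (l k).V ω ω' →
      s.a.cellv 1 k ((l k).p.π ω) = s.a.cellv 1 k ((l k).p.π ω') →
      s.x.cellv 1 k ((l k).p.π ω) = s.x.cellv 1 k ((l k).p.π ω') →
      s.t.cellv c k ((l k).p.π ω) = s.t.cellv c k ((l k).p.π ω') → ∀ i, |(X k ω i : ℝ) - X k ω' i| ≤ K k)
    (hB : ∀ᶠ k in UF, ∀ ω ω', (l k).T.μ ω ≠ 0 → (l k).T.μ ω' ≠ 0 → (l k).V ω ω' →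
      s.P.cellv 1 k ((l k).p.π ω) = s.P.cellv 1 k ((l k).p.π ω') →
      s.t.cellv 1 k ((l k).p.π ω) = s.t.cellv 1 k ((l k).p.π ω') → ∀ i, |(X k ω i : ℝ) - X k ω' i| ≤ K k) :
    DMc s c (ladd l (fun k => Setoid.ker (X k))) := by
  apply DM_ladd hl
  · have h1 := nul_few l X (fun k => ((l k).V ⊓ Setoid.comap (l k).p.π (Setoid.ker (s.a.cellv 1 k) ⊓
      Setoid.ker (s.x.cellv 1 k) ⊓ Setoid.ker (s.t.cellv c k))) ⊓ (l k).T.Z) C hC
      (by filter_upwards [hX] with k hk ω i hω using hk ω i hω) (fun _ _ => True) (Typ_true (S := l.sp)) K hK (by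
        filter_upwards [hA] with k hk ω ω' a a' _ _ b
        obtain ⟨⟨b1, ⟨b2, b3⟩, b4⟩, -⟩ := b
        exact hk ω ω' a a' b1 b2 b3 b4)
    refine h1.congr fun k => ?_
    congr 1
    exact (h_label (l k) (Setoid.ker (X k)) _).symm
  · have h1 := nul_few l X (fun k => ((l k).V ⊓ Setoid.comap (l k).p.π (Setoid.ker (s.P.cellv 1 k) ⊓
      Setoid.ker (s.t.cellv 1 k))) ⊓ (l k).T.Z) C hC
      (by filter_upwards [hX] with k hk ω i hω using hk ω i hω) (fun _ _ => True) (Typ_true (S := l.sp)) K hK (by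
        filter_upwards [hB] with k hk ω ω' a a' _ _ b
        obtain ⟨⟨b1, b2, b3⟩, -⟩ := b
        exact hk ω ω' a a' b1 b2 b3)
    refine h1.congr fun k => ?_
    congr 1
    exact (h_label (l k) (Setoid.ker (X k)) _).symm

/-- close values have close cells -/
theorem cellv_few (y : S.VV m) {r : ℝ} {k : ℕ} {ω ω' : (S.F k).Ω} {K : ℝ} (i : Fin m)
    (h : |y.v k ω i - y.v k ω' i| ≤ K * S.dl r k) : |(y.cellv r k ω i : ℝ) - y.cellv r k ω' i| ≤ K + 1 :=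
  floor_diff (S.dl_pos r k) h

/-- known digits of the velocity may be added to labels -/
theorem DMc_x {c u : ℝ} (hx : H (s.x.dg u) = 0) {l : Lab S} (hl : DMc s c l) :
    DMc s c (ladd l (fun k => Setoid.ker (fun ω => s.x.cellv u k ((l k).p.π ω)))) := by
  have h2 := hup_inf l (s.x.bdd u).toInf
  rw [show cl (s.x.bdd u).toInf = s.x.dg u from (io_eq _).symm] at h2
  have h3 : H (up1 l (s.x.dg u)) = 0 := le_antisymm ((H_up1_le l _).trans hx.le) (H_nonneg _)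
  rw [h3] at h2
  have h4 : ∀ A : Part S, Nul S (fun k => h (fc (Setoid.ker (fun ω => s.x.cellv u k ((l k).p.π ω))))
      ((l k).v ⊔ (l k).p.map (A k))) := by
    intro A
    have h5 : Nul S (fun k => h ((l k).p.map (rpI (s.x.bdd u).toInf k)) (l k).v) := h2
    apply h5.of_le (Eventually.of_forall fun k => h_nonneg _ _)
    refine Eventually.of_forall fun k => ?_
    exact h_anti le_sup_left
  exact DM_ladd hl _ (h4 _) (h4 _)

/-- rounding down -/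
theorem floor_round {d v : ℝ} (hd : 0 < d) : |v - d * (⌊v / d⌋ : ℤ)| ≤ d := by
  have h1 := Int.floor_le (v / d)
  have h2 := Int.lt_floor_add_one (v / d)
  rw [le_div_iff₀ hd] at h1
  rw [div_lt_iff₀ hd] at h2
  rw [abs_le]
  constructor <;> linarith

/-- the rounded height -/
def tr (s : Sys S m) (c : ℝ) (k : ℕ) (ω : (S.F k).Ω) : ℝ := S.dl c k * (s.t.cellv c k ω 0 : ℤ)

/-- the rounded velocity -/
def xr (s : Sys S m) (u : ℝ) (k : ℕ) (ω : (S.F k).Ω) (i : Fin m) : ℝ := S.dl u k * (s.x.cellv u k ω i : ℤ)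

theorem tr_close (c : ℝ) (k : ℕ) (ω : (S.F k).Ω) : |s.t.v k ω 0 - tr s c k ω| ≤ S.dl c k :=
  floor_round (S.dl_pos c k)

theorem xr_close (u : ℝ) (k : ℕ) (ω : (S.F k).Ω) (i : Fin m) : |s.x.v k ω i - xr s u k ω i| ≤ S.dl u k :=
  floor_round (S.dl_pos u k)

/-- the position of the line at the rounded height -/
def qv (s : Sys S m) (c : ℝ) (hc : 0 ≤ c) : S.VV m where
  v := fun k ω i => s.a.v k ω i + tr s c k ω * s.x.v k ω i
  bd := by
    obtain ⟨Ka, hKa, ha⟩ := s.a.bd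
    obtain ⟨Kx, hKx, hx⟩ := s.x.bd
    obtain ⟨Kt, hKt, ht⟩ := s.t.bd
    refine ⟨fun k => Ka k + (Kt k + 1) * Kx k, hKa.add ((hKt.add (S.Sub_const zero_le_one)).mul hKx), ?_⟩
    filter_upwards [ha, hx, ht, hKx.1, hKt.1] with k h1 h2 h3 h4 h5 ω hω i
    have e1 : |tr s c k ω| ≤ Kt k + 1 := by
      have a1 := tr_close (s := s) c k ω
      have a2 := h3 ω hω 0
      have a3 : S.dl c k ≤ 1 := by
        have := S.dl_anti hc k
        rwa [S.dl_zero] at this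
      have a4 : tr s c k ω = s.t.v k ω 0 - (s.t.v k ω 0 - tr s c k ω) := by ring
      rw [a4]
      exact (abs_sub _ _).trans (by linarith)
    refine (abs_add_le _ _).trans (add_le_add (h1 ω hω i) ?_)
    rw [abs_mul]
    exact mul_le_mul e1 (h2 ω hω i) (abs_nonneg _) (by linarith)

/-- the rounded position -/
def qr (s : Sys S m) (c : ℝ) (hc : 0 ≤ c) (w : ℝ) (k : ℕ) (ω : (S.F k).Ω) (i : Fin m) : ℝ :=
  S.dl w k * ((qv s c hc).cellv w k ω i : ℤ)

theorem qr_close {c : ℝ} (hc : 0 ≤ c) (w : ℝ) (k : ℕ) (ω : (S.F k).Ω) (i : Fin m) :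
    |(qv s c hc).v k ω i - qr s c hc w k ω i| ≤ S.dl w k := floor_round (S.dl_pos w k)

/-- the label of the box: cells of the velocity, of the height, of the position -/
def bl1 (s : Sys S m) (u : ℝ) : Lab S :=
  ladd (fun k => FLab.triv (S.F k)) (fun k => Setoid.ker (fun ω : (S.F k).Ω => s.x.cellv u k ω))

def bl2 (s : Sys S m) (u c : ℝ) : Lab S := ladd (bl1 s u) (fun k => Setoid.ker (fun ω : (S.F k).Ω => s.t.cellv c k ω))

def bl3 (s : Sys S m) (u c : ℝ) (hc : 0 ≤ c) (w : ℝ) : Lab S :=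
  ladd (bl2 s u c) (fun k => Setoid.ker (fun ω : (S.F k).Ω => (qv s c hc).cellv w k ω))

theorem bl1_DM {c u : ℝ} (hx : H (s.x.dg u) = 0) : DMc s c (bl1 s u) :=
  DMc_x (l := fun k => FLab.triv (S.F k)) hx (Lab.DM_triv _ _)

theorem bl2_DM {c u : ℝ} (hc1 : c ≤ 1) (hx : H (s.x.dg u) = 0) : DMc s c (bl2 s u c) := by
  obtain ⟨C, hC, hb⟩ := cellv_bd s.t c
  refine DMc_few (bl1_DM hx) (fun k (ω : (S.F k).Ω) => s.t.cellv c k ω) C hC ?_ (fun _ => 1 + 1)
    (S.Sub_const (by norm_num)) ?_ ?_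
  · filter_upwards [hb] with k hk ω i hω using hk ω i hω
  · refine Eventually.of_forall fun k ω ω' _ _ _ _ _ h i => ?_
    have h' : s.t.cellv c k ω = s.t.cellv c k ω' := h
    show |(s.t.cellv c k ω i : ℝ) - s.t.cellv c k ω' i| ≤ _
    rw [h', sub_self, abs_zero]
    norm_num
  · refine Eventually.of_forall fun k ω ω' _ _ _ _ h i => ?_
    apply cellv_few s.t i
    rw [one_mul]
    exact (s.t.cellv_close 1 k ω ω' h i).trans (S.dl_anti hc1 k)

theorem bl3_DM {c u w : ℝ} (hc : 0 ≤ c) (hc1 : c ≤ 1) (hw1 : w ≤ 1) (hw : w ≤ c + u)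
    (hx : H (s.x.dg u) = 0) : DMc s c (bl3 s u c hc w) := by
  obtain ⟨C, hC, hb⟩ := cellv_bd (qv s c hc) w
  obtain ⟨Kx, hKx, hx'⟩ := s.x.bd
  obtain ⟨Kt, hKt, ht⟩ := s.t.bd
  have hK : S.Sub (fun k => (2 + Kt k + Kx k + 1) + 1) :=
    ((((S.Sub_const (by norm_num : (0 : ℝ) ≤ 2)).add hKt).add hKx).add (S.Sub_const zero_le_one)).add
      (S.Sub_const zero_le_one)
  refine DMc_few (bl2_DM hc1 hx) (fun k (ω : (S.F k).Ω) => (qv s c hc).cellv w k ω) C hC ?_ _ hK ?_ ?_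
  · filter_upwards [hb] with k hk ω i hω using hk ω i hω
  · filter_upwards [ht, hKt.1, hKx.1] with k k1 k2 k3 ω ω' hω _ _ ha hx ht' i
    have hω : (S.F k).μ ω ≠ 0 := hω
    have ha : s.a.cellv 1 k ω = s.a.cellv 1 k ω' := ha
    have hx : s.x.cellv 1 k ω = s.x.cellv 1 k ω' := hx
    have ht' : s.t.cellv c k ω = s.t.cellv c k ω' := ht'
    apply cellv_few (qv s c hc) i
    have e1 := s.a.cellv_close 1 k ω ω' ha i
    have e2 := s.x.cellv_close 1 k ω ω' hx i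
    have e3 : tr s c k ω = tr s c k ω' := by unfold tr; rw [ht']
    have e4 : |tr s c k ω| ≤ Kt k + 1 := by
      have a1 := tr_close (s := s) c k ω
      have a2 := k1 ω hω 0
      have a3 : S.dl c k ≤ 1 := by
        have := S.dl_anti hc k
        rwa [S.dl_zero] at this
      have a4 : tr s c k ω = s.t.v k ω 0 - (s.t.v k ω 0 - tr s c k ω) := by ring
      rw [a4]
      exact (abs_sub _ _).trans (by linarith)
    have e5 : (qv s c hc).v k ω i - (qv s c hc).v k ω' i = (s.a.v k ω i - s.a.v k ω' i) +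
        tr s c k ω * (s.x.v k ω i - s.x.v k ω' i) := by
      show (s.a.v k ω i + tr s c k ω * s.x.v k ω i) - (s.a.v k ω' i + tr s c k ω' * s.x.v k ω' i) = _
      rw [← e3]
      ring
    have hd1 := S.dl_pos 1 k
    have hdw : S.dl 1 k ≤ S.dl w k := S.dl_anti hw1 k
    rw [e5]
    refine (abs_add_le _ _).trans ?_
    rw [abs_mul]
    have e6 : |tr s c k ω| * |s.x.v k ω i - s.x.v k ω' i| ≤ (Kt k + 1) * S.dl 1 k :=
      mul_le_mul e4 e2 (abs_nonneg _) (by linarith)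
    have e7 : (2 + Kt k + Kx k + 1) * S.dl 1 k ≤ (2 + Kt k + Kx k + 1) * S.dl w k :=
      mul_le_mul_of_nonneg_left hdw (by linarith)
    nlinarith
  · filter_upwards [hx', hKt.1, hKx.1] with k k1 k2 k3 ω ω' hω hω' hV hP ht' i
    have hω : (S.F k).μ ω ≠ 0 := hω
    have hω' : (S.F k).μ ω' ≠ 0 := hω'
    have hP : s.P.cellv 1 k ω = s.P.cellv 1 k ω' := hP
    have ht' : s.t.cellv 1 k ω = s.t.cellv 1 k ω' := ht'
    obtain ⟨⟨-, hVx⟩, hVt⟩ := hV
    have hVx : s.x.cellv u k ω = s.x.cellv u k ω' := hVx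
    have hVt : s.t.cellv c k ω = s.t.cellv c k ω' := hVt
    apply cellv_few (qv s c hc) i
    have e1 : |s.P.v k ω i - s.P.v k ω' i| ≤ S.dl 1 k := s.P.cellv_close 1 k ω ω' hP i
    have e2 := s.t.cellv_close 1 k ω ω' ht' 0
    have e3 := s.x.cellv_close u k ω ω' hVx i
    have e4 : tr s c k ω = tr s c k ω' := by unfold tr; rw [hVt]
    have e5 := tr_close (s := s) c k ω'
    have e6 := k1 ω hω i
    have hP1 : ∀ ω, s.P.v k ω i = s.a.v k ω i + s.t.v k ω 0 * s.x.v k ω i := fun ω => rfl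
    have e7 : (qv s c hc).v k ω i - (qv s c hc).v k ω' i = (s.P.v k ω i - s.P.v k ω' i) -
        ((s.t.v k ω 0 - s.t.v k ω' 0) * s.x.v k ω i +
          (s.t.v k ω' 0 - tr s c k ω') * (s.x.v k ω i - s.x.v k ω' i)) := by
      show (s.a.v k ω i + tr s c k ω * s.x.v k ω i) - (s.a.v k ω' i + tr s c k ω' * s.x.v k ω' i) = _
      rw [hP1, hP1, e4]
      ring
    have hd1 := S.dl_pos 1 k
    have hdw : S.dl 1 k ≤ S.dl w k := S.dl_anti hw1 k
    have hdc := S.dl_pos c k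
    have hdw' : S.dl c k * S.dl u k ≤ S.dl w k := by
      rw [← S.dl_add]
      exact S.dl_anti hw k
    rw [e7]
    refine (abs_sub _ _).trans ?_
    refine (add_le_add e1 (abs_add_le _ _)).trans ?_
    rw [abs_mul, abs_mul]
    have f1 : |s.t.v k ω 0 - s.t.v k ω' 0| * |s.x.v k ω i| ≤ S.dl 1 k * Kx k :=
      mul_le_mul e2 e6 (abs_nonneg _) hd1.le
    have f2 : |s.t.v k ω' 0 - tr s c k ω'| * |s.x.v k ω i - s.x.v k ω' i| ≤ S.dl c k * S.dl u k :=
      mul_le_mul e5 e3 (abs_nonneg _) hdc.le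
    have f3 : S.dl 1 k * Kx k ≤ S.dl w k * Kx k := mul_le_mul_of_nonneg_right hdw k3
    have hdwp := S.dl_pos w k
    nlinarith

/-- the form of the box -/
def bx (s : Sys S m) (u c : ℝ) (hc : 0 ≤ c) (w : ℝ) (k : ℕ) (ω : (S.F k).Ω) :
    Matrix (Mon (m + 1) 1) (Mon (m + 1) 1) ℝ :=
  bxm ((S.dl w k ^ 2)⁻¹) (qr s c hc w k ω) (xr s u k ω) (tr s c k ω)

theorem bx_meas (u c : ℝ) (hc : 0 ≤ c) (w : ℝ) (k : ℕ) (ω ω' : (S.F k).Ω) (h : ((bl3 s u c hc w) k).V ω ω') :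
    bx s u c hc w k ω = bx s u c hc w k ω' := by
  obtain ⟨⟨⟨-, h1⟩, h2⟩, h3⟩ := h
  have h1 : s.x.cellv u k ω = s.x.cellv u k ω' := h1
  have h2 : s.t.cellv c k ω = s.t.cellv c k ω' := h2
  have h3 : (qv s c hc).cellv w k ω = (qv s c hc).cellv w k ω' := h3
  have e1 : qr s c hc w k ω = qr s c hc w k ω' := by
    funext i
    unfold qr
    rw [h3]
  have e2 : xr s u k ω = xr s u k ω' := by
    funext i
    unfold xr
    rw [h1]
  have e3 : tr s c k ω = tr s c k ω' := by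
    unfold tr
    rw [h2]
  unfold bx
  rw [e1, e2, e3]

/-- the size of the form of the box -/
theorem bx_phi {u c w : ℝ} (hc : 0 ≤ c) (hu : 0 ≤ u) (hw1 : w ≤ 1) (hw : w ≤ c + u) :
    ∃ K : ℕ → ℝ, S.Sub K ∧ ∀ᶠ k in UF, ∀ ω, (S.F k).μ ω ≠ 0 → sph s 1 k ω (bx s u c hc w k ω) ≤ K k := by
  obtain ⟨K0, hK0, hone⟩ := (gau s 1).one
  obtain ⟨Kx, hKx, hx⟩ := s.x.bd
  have hnn := nn_one (m + 1) 1
  refine ⟨fun k => K0 k + (m * nn (m + 1) 1) * (Kx k + 4) ^ 2, ?_, ?_⟩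
  · exact hK0.add ((S.Sub_const (by positivity)).mul (Sub_powN (hKx.add (S.Sub_const (by norm_num))) 2))
  filter_upwards [hone, hx, hKx.1] with k h1 h2 h3 ω hω
  have hdw := S.dl_pos w k
  have hd1 := S.dl_pos 1 k
  have hdc := S.dl_pos c k
  have hd1w : S.dl 1 k ≤ S.dl w k := S.dl_anti hw1 k
  have hdcu : S.dl c k * S.dl u k ≤ S.dl w k := by
    rw [← S.dl_add]
    exact S.dl_anti hw k
  have hdu1 : S.dl u k ≤ 1 := by
    have := S.dl_anti hu k
    rwa [S.dl_zero] at this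
  unfold sph bx
  rw [bxm_phi]
  have h4 : phi (S.dl 1 k) (1 : Matrix (Mon (m + 1) 1) (Mon (m + 1) 1) ℝ) (ptf s k ω) ≤ K0 k := h1 ω hω
  refine add_le_add h4 ?_
  have h5 : ∀ i ∈ (Finset.univ : Finset (Fin m)), (S.dl w k ^ 2)⁻¹ *
      ph 1 (aff (qr s c hc w k ω) (xr s u k ω) (tr s c k ω) i) (S.dl 1 k) (ptf s k ω) ≤
      nn (m + 1) 1 * (Kx k + 4) ^ 2 := by
    intro i _
    have a1 : |xr s u k ω i| ≤ Kx k + 1 := by
      have b1 := xr_close (s := s) u k ω i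
      have b2 := h2 ω hω i
      have b3 : xr s u k ω i = s.x.v k ω i - (s.x.v k ω i - xr s u k ω i) := by ring
      rw [b3]
      exact (abs_sub _ _).trans (by linarith)
    have a2 : |MvPolynomial.eval (ptf s k ω) (aff (qr s c hc w k ω) (xr s u k ω) (tr s c k ω) i)| ≤
        2 * S.dl w k := by
      rw [eval_aff]
      have b1 : ptf s k ω i.succ - qr s c hc w k ω i - xr s u k ω i * (ptf s k ω 0 - tr s c k ω) =
          ((qv s c hc).v k ω i - qr s c hc w k ω i) +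
            (s.t.v k ω 0 - tr s c k ω) * (s.x.v k ω i - xr s u k ω i) := by
        show (s.a.v k ω i + s.t.v k ω 0 * s.x.v k ω i) - qr s c hc w k ω i -
          xr s u k ω i * (s.t.v k ω 0 - tr s c k ω) =
          ((s.a.v k ω i + tr s c k ω * s.x.v k ω i) - qr s c hc w k ω i) + _
        ring
      rw [b1]
      refine (abs_add_le _ _).trans ?_
      rw [abs_mul]
      have b2 := qr_close (s := s) hc w k ω i
      have b3 : |s.t.v k ω 0 - tr s c k ω| * |s.x.v k ω i - xr s u k ω i| ≤ S.dl c k * S.dl u k :=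
        mul_le_mul (tr_close c k ω) (xr_close u k ω i) (abs_nonneg _) hdc.le
      linarith
    have a3 := ph_aff_le (S.dl 1 k) (Kx k + 1) (2 * S.dl w k) hd1.le (qr s c hc w k ω) (xr s u k ω) (tr s c k ω) i
      (ptf s k ω) a1 a2
    rw [inv_mul_le_iff₀ (by positivity)]
    refine a3.trans ?_
    have a4 : 2 * S.dl w k + S.dl 1 k * (1 + (Kx k + 1)) ≤ (Kx k + 4) * S.dl w k := by nlinarith
    have a5 : (2 * S.dl w k + S.dl 1 k * (1 + (Kx k + 1))) ^ 2 ≤ ((Kx k + 4) * S.dl w k) ^ 2 :=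
      pow_le_pow_left₀ (by positivity) a4 2
    calc nn (m + 1) 1 * (2 * S.dl w k + S.dl 1 k * (1 + (Kx k + 1))) ^ 2 ≤
        nn (m + 1) 1 * ((Kx k + 4) * S.dl w k) ^ 2 := mul_le_mul_of_nonneg_left a5 (by linarith)
      _ = _ := by ring
  refine (Finset.sum_le_card_nsmul _ _ _ h5).trans (le_of_eq ?_)
  rw [nsmul_eq_mul, Finset.card_univ, Fintype.card_fin]
  ring

theorem dl_inv_sq (w : ℝ) (k : ℕ) : (S.dl w k ^ 2)⁻¹ = 2 ^ (2 * w * (S.F k).n) := by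
  unfold Sp.dl
  rw [← Real.rpow_natCast (2 ^ _) 2, ← Real.rpow_mul (by norm_num), ← Real.rpow_neg (by norm_num)]
  congr 1
  push_cast
  ring

/-- LOWER BOUND of the smallest exponent: the box of a window -/
theorem exists_box {u c w : ℝ} (hc : 0 ≤ c) (hc1 : c ≤ 1) (hu : 0 ≤ u) (hw1 : w ≤ 1) (hw : w ≤ c + u)
    (hx : H (s.x.dg u) = 0) : ∃ y : ∀ k, FD (S.F k) (Mon (m + 1) 1), (gau s 1).Ad (cA s c) (cB s) y ∧
      Sp.Typ (S := (lb y).sp) (fun k (ω : (y k).l.T.Ω) => Big s y w k ω) := by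
  obtain ⟨K, hK, hb⟩ := bx_phi (s := s) hc hu hw1 hw
  have hm : ∀ k (ω ω' : ((bl3 s u c hc w) k).T.Ω), ((bl3 s u c hc w) k).T.μ ω ≠ 0 →
      ((bl3 s u c hc w) k).T.μ ω' ≠ 0 → ((bl3 s u c hc w) k).V ω ω' → ((bl3 s u c hc w) k).T.Z ω ω' →
      bx s u c hc w k ω = bx s u c hc w k ω' := fun k ω ω' _ _ h _ => bx_meas u c hc w k ω ω' h
  have h1 : ∀ᶠ k in UF, ∀ ω : ((bl3 s u c hc w) k).T.Ω, ((bl3 s u c hc w) k).T.μ ω ≠ 0 →
      (bx s u c hc w k ω).IsSymm ∧ ∀ x, x ⬝ᵥ x ≤ qf (bx s u c hc w k ω) x :=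
    Eventually.of_forall fun k ω _ => ⟨bxm_symm _ _ _ _, fun x => bxm_one_le (by positivity) _ _ _ x⟩
  have hT : Sp.Typ (S := (bl3 s u c hc w).sp) (fun k (ω : ((bl3 s u c hc w) k).T.Ω) =>
      (gau s 1).φ k (((bl3 s u c hc w) k).p.π ω) (bx s u c hc w k ω) ≤ K k) := by
    refine typ_mono (S := (bl3 s u c hc w).sp) (E := fun _ _ => True) (Typ_true (S := (bl3 s u c hc w).sp)) ?_
    filter_upwards [hb] with k hk ω hω _
    exact hk ω hω
  refine ⟨cutFD (gau s 1) (bl3 s u c hc w) (fun k ω => bx s u c hc w k ω) hm,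
    cut_ad (bl3 s u c hc w) (bl3_DM hc hc1 hw1 hw hx) (fun k ω => bx s u c hc w k ω) hm h1 K hK hT, ?_⟩
  refine typ_mono (S := (bl3 s u c hc w).sp)
    (cut_typ (bl3 s u c hc w) (fun k ω => bx s u c hc w k ω) h1 K hK hT) ?_
  refine Eventually.of_forall fun k ω _ h2 => ?_
  intro e
  show _ ≤ e ⬝ᵥ (Jf (S.dl 1 k) (cutm ((gau s 1).cp k) (bx s u c hc w k ω)) _ *ᵥ e)
  unfold cutm
  rw [if_pos h2, ← dl_inv_sq]
  exact bxm_Jf (by positivity) _ _ _ _ _ _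

/-- transfer of lower bounds of the space block to the optimal form -/
theorem Big_opt {c : ℝ} {x y : ∀ k, FD (S.F k) (Mon (m + 1) 1)} (hx : (gau s 1).Opt (cA s c) (cB s) x)
    (hy : (gau s 1).Ad (cA s c) (cB s) y) (r : ℝ)
    (h : Sp.Typ (S := (lb y).sp) (fun k (ω : (y k).l.T.Ω) => Big s y r k ω)) (e : ℝ) (he : 0 < e) :
    Sp.Typ (S := (lb x).sp) (fun k (ω : (x k).l.T.Ω) => Big s x (r - e) k ω) := by
  have h2 : 0 < 2 * e := by linarith
  have h' : Tendsto (fun k => (y k).l.T.pb (fun ω => ¬ Big s y r k ω)) UF (𝓝 0) := h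
  have h3 := (Gau.Opt.dom (gau s 1) hx hy _ h2).add h'
  rw [add_zero] at h3
  refine tendsto_of_tendsto_of_tendsto_of_le_of_le (tendsto_const_nhds (x := (0 : ℝ))) h3
    (fun k => (x k).l.T.pb_nonneg _) (fun k => ?_)
  have h4 := pb_push ((x k).l.am (y k).l).p1 (fun ω => ¬ Big s x (r - e) k ω)
  have h5 := pb_push ((x k).l.am (y k).l).p2 (fun ω => ¬ Big s y r k ω)
  show (x k).l.T.pb (fun ω => ¬ Big s x (r - e) k ω) ≤ _ + _
  rw [← h4, ← h5]
  refine le_trans (FSp.pb_mono _ (E' := fun w : ((x k).l.am (y k).l).sp.Ω =>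
    (¬ ∀ v, qf (((x k).jj (y k)).g' w) v ≤ 2 ^ (2 * e * (S.F k).n) * qf (((x k).jj (y k)).g w) v) ∨
    ¬ Big s y r k (((x k).l.am (y k).l).p2.π w)) ?_) (pb_or _ _ _)
  intro w hw h6
  by_contra hc
  rw [not_or, not_not, not_not] at hc
  apply h6
  intro v
  have h7 := hc.2 v
  have h8 := hc.1 (Wd m 1 0 *ᵥ v)
  have h9 : qf (((x k).jj (y k)).g' w) (Wd m 1 0 *ᵥ v) = qf ((y k).g (((x k).l.am (y k).l).p2.π w)) (Wd m 1 0 *ᵥ v) :=
    rfl
  have h10 : qf (((x k).jj (y k)).g w) (Wd m 1 0 *ᵥ v) = qf ((x k).g (((x k).l.am (y k).l).p1.π w)) (Wd m 1 0 *ᵥ v) :=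
    rfl
  rw [h9, h10] at h8
  rw [Jf_one] at h7 ⊢
  have hn := nn_one (m + 1) 1
  have e1 : (2 : ℝ) ^ (2 * r * (S.F k).n) = 2 ^ (2 * e * (S.F k).n) * 2 ^ (2 * (r - e) * (S.F k).n) := by
    rw [← Real.rpow_add (by norm_num)]
    congr 1; ring
  rw [e1] at h7
  have h11 : nn (m + 1) 1 * qf ((y k).g (((x k).l.am (y k).l).p2.π w)) (Wd m 1 0 *ᵥ v) ≤
      nn (m + 1) 1 * (2 ^ (2 * e * (S.F k).n) * qf ((x k).g (((x k).l.am (y k).l).p1.π w)) (Wd m 1 0 *ᵥ v)) :=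
    mul_le_mul_of_nonneg_left h8 (by linarith)
  have h12 := h7.trans h11
  have hp : (0 : ℝ) < 2 ^ (2 * e * (S.F k).n) := by positivity
  have h13 : (2 : ℝ) ^ (2 * e * (S.F k).n) * (2 ^ (2 * (r - e) * (S.F k).n) * (v ⬝ᵥ v)) ≤
      2 ^ (2 * e * (S.F k).n) * (nn (m + 1) 1 * qf ((x k).g (((x k).l.am (y k).l).p1.π w)) (Wd m 1 0 *ᵥ v)) := by
    calc _ = 2 ^ (2 * e * (S.F k).n) * 2 ^ (2 * (r - e) * (S.F k).n) * (v ⬝ᵥ v) := by ring
      _ ≤ _ := h12
      _ = _ := by ring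
  exact le_of_mul_le_mul_left h13 hp

/-- LOWER BOUND of the space block of optimal forms of degree 1 -/
theorem big_typ {c r : ℝ} (hc : 0 ≤ c) (hc1 : c ≤ 1) {x : ∀ k, FD (S.F k) (Mon (m + 1) 1)}
    (hx : (gau s 1).Opt (cA s c) (cB s) x) (hr1 : r < 1) (hr : r < c + lam s) :
    Sp.Typ (S := (lb x).sp) (fun k (ω : (x k).l.T.Ω) => Big s x r k ω) := by
  obtain ⟨y, hy, hT⟩ := exists_box (s := s) (u := lam s) (w := min 1 (c + lam s)) hc hc1 lam_nonneg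
    (min_le_left _ _) (min_le_right _ _) H_lam
  have h1 := Big_opt hx hy _ hT (min 1 (c + lam s) - r) (by
    have := lt_min hr1 hr
    linarith)
  have e1 : min 1 (c + lam s) - (min 1 (c + lam s) - r) = r := by ring
  rw [e1] at h1
  exact h1

end

end Pool.Agent.Helper59.GR
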