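import Pool.Agent.Helper59.GR.One
import Pool.Agent.Helper59.LF.Speed
import Pool.Agent.Helper3.LF.Eta
import Pool.Agent.Helper3.PR.Vol

/-! A form on affine functions with a large space block determines the velocity. -/

set_option autoImplicit false

namespace Pool.Agent.Helper59.GR

open Finset Filter Topology Matrix Pool.Agent.Helper69.RK Pool.Agent.Helper31.EC Pool.Agent.Helper31.EC.Sp
open Pool.Agent.Helper40.EL Pool.Agent.Helper95.LF Pool.Agent.Helper3.LF Pool.Agent.Helper48.NS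
open Pool.Agent.Helper89.LX Pool.Agent.Helper3.PR
open Pool.Agent.Helper59.LF (nul_few)

noncomputable section

variable {S : Sp} {m : ℕ} {s : Sys S m}

/-- cell numbers are at most exponential -/
theorem cellv_bd (y : S.VV m) (r : ℝ) : ∃ C : ℝ, 0 ≤ C ∧ ∀ᶠ k in UF, ∀ ω i, (S.F k).μ ω ≠ 0 →
    |(y.cellv r k ω i : ℝ)| ≤ 2 ^ (C * (S.F k).n) := by
  obtain ⟨K, hK, hb⟩ := y.bd
  have hs : S.Sub (fun k => K k + 1) := hK.add (S.Sub_const zero_le_one)
  refine ⟨|r| + 1, by positivity, ?_⟩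
  filter_upwards [hb, hs.eventually_le one_pos, hK.1] with k h1 h2 h3 ω i hω
  have hn := (S.F k).pos
  have hd := S.dl_pos r k
  have e1 : |(y.cellv r k ω i : ℝ)| ≤ |y.v k ω i / S.dl r k| + 1 := by
    show |((⌊y.v k ω i / S.dl r k⌋ : ℤ) : ℝ)| ≤ _
    have a1 := Int.floor_le (y.v k ω i / S.dl r k)
    have a2 := Int.lt_floor_add_one (y.v k ω i / S.dl r k)
    have a3 := abs_le.mp (le_refl |y.v k ω i / S.dl r k|)
    rw [abs_le]
    constructor <;> linarith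
  have e2 : |y.v k ω i / S.dl r k| ≤ K k * 2 ^ (|r| * (S.F k).n) := by
    rw [abs_div, abs_of_pos hd, div_le_iff₀ hd]
    have e3 : (2 : ℝ) ^ (|r| * (S.F k).n) * S.dl r k ≥ 1 := by
      unfold Sp.dl
      rw [← Real.rpow_add (by norm_num)]
      apply Real.one_le_rpow (by norm_num)
      have := le_abs_self r
      nlinarith
    calc |y.v k ω i| ≤ K k := h1 ω hω i
      _ = K k * 1 := (mul_one _).symm
      _ ≤ K k * (2 ^ (|r| * (S.F k).n) * S.dl r k) := mul_le_mul_of_nonneg_left e3 h3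
      _ = _ := by ring
  have e4 : (1 : ℝ) ≤ 2 ^ (|r| * (S.F k).n) := Real.one_le_rpow (by norm_num) (by positivity)
  calc |(y.cellv r k ω i : ℝ)| ≤ K k * 2 ^ (|r| * (S.F k).n) + 1 * 2 ^ (|r| * (S.F k).n) := by linarith
    _ = (K k + 1) * 2 ^ (|r| * (S.F k).n) := by ring
    _ ≤ 2 ^ (1 * (S.F k).n) * 2 ^ (|r| * (S.F k).n) := by
        apply mul_le_mul_of_nonneg_right _ (by positivity)
        linarith
    _ = 2 ^ ((|r| + 1) * (S.F k).n) := by
        rw [← Real.rpow_add (by norm_num)]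
        congr 1
        ring

/-- finite entropies over a label -/
theorem hup_inf (l : Lab S) (A : S.Inf) :
    Tendsto (fun k => h ((l k).p.map (rpI A k)) ((l k).v) / (S.F k).n) UF (𝓝 (H (up1 l (cl A)))) := by
  have h1 : H (up1 l (cl A)) = h (cl (l.upI 1 one_pos A)) (cl (Inf.bot : (l.ovr 1 one_pos).Inf)) := by
    rw [cl_bot, h_bot]
    rfl
  rw [h1, ← hr_rpI]
  have h2 := (rpI_Bd (l.upI 1 one_pos A)).tendsto (rpI (Inf.bot : (l.ovr 1 one_pos).Inf))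
  refine h2.congr fun k => ?_
  have e0 : rpI (Inf.bot : (l.ovr 1 one_pos).Inf) k = (l k).up 1 one_pos ⊥ := by
    rw [(l k).up_bot]
    exact fc_top
  have e1 : h (rpI (l.upI 1 one_pos A) k) (rpI (Inf.bot : (l.ovr 1 one_pos).Inf) k) =
      h ((l k).p.map (rpI A k)) ((l k).p.map ⊥ ⊔ (l k).v) := by
    rw [e0]
    exact (l k).h_up 1 one_pos (rpI A k) ⊥
  have e2 : ((l.ovr 1 one_pos).F k).n = (S.F k).n := by
    rw [l.n_over, one_mul]
  rw [e1, e2, (l k).p.map_bot, bot_sup_eq]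

/-- a label which determines a vector typically to the precision `2 ^ (-(u n))` knows its digits -/
theorem hup_dg_zero (l : Lab S) (y : S.VV m) (u : ℝ) (E : ∀ k, (l k).T.Ω → Prop) (hE : Sp.Typ (S := l.sp) E)
    (K : ℕ → ℝ) (hK : S.Sub K) (hh : ∀ᶠ k in UF, ∀ ω ω', (l k).T.μ ω ≠ 0 → (l k).T.μ ω' ≠ 0 → E k ω → E k ω' →
      (l k).V ω ω' → (l k).T.Z ω ω' → ∀ i, |y.v k ((l k).p.π ω) i - y.v k ((l k).p.π ω') i| ≤ K k * S.dl u k) :
    H (up1 l (y.dg u)) = 0 := by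
  have h1 := hup_inf l (y.bdd u).toInf
  rw [show cl (y.bdd u).toInf = y.dg u from (io_eq _).symm] at h1
  obtain ⟨C, hC, hb⟩ := cellv_bd y u
  have h2 := nul_few l (fun k ω => y.cellv u k ((l k).p.π ω)) (fun k => (l k).V ⊓ (l k).T.Z) C hC (by
      filter_upwards [hb] with k hk ω i hω
      exact hk _ i ((l k).p.supp ω hω)) E hE (fun k => K k + 1) (hK.add (S.Sub_const zero_le_one)) (by
      filter_upwards [hh] with k hk ω ω' a a' b b' c i
      exact floor_diff (S.dl_pos u k) (hk ω ω' a a' b b' c.1 c.2 i))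
  have h3 : ∀ k, h ((l k).p.map (rpI (y.bdd u).toInf k)) (l k).v =
      (l k).T.e (Setoid.ker fun ω => y.cellv u k ((l k).p.π ω)) ((l k).V ⊓ (l k).T.Z) := fun k =>
    h_fc (F := (l k).T) (Setoid.ker fun ω => y.cellv u k ((l k).p.π ω)) (l k).V
  simp only [h3] at h1
  exact tendsto_nhds_unique h1 h2

/-- a form whose space block is large determines the velocity: to the precision `2 ^ (-(r - c) n)` -/
theorem vel_known {c r : ℝ} (h0 : 0 ≤ c) (hc1 : c < 1) {x : ∀ k, FD (S.F k) (Mon (m + 1) 1)}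
    (hx : (gau s 1).Ad (cA s c) (cB s) x)
    (hJ : Sp.Typ (S := (lb x).sp) (fun k (ω : (x k).l.T.Ω) => ∀ e : Fin m → ℝ, 2 ^ (2 * r * (S.F k).n) * (e ⬝ᵥ e) ≤
      e ⬝ᵥ (Jf (S.dl 1 k) ((x k).g ω) (ptf s k ((x k).l.p.π ω)) *ᵥ e))) :
    H (up1 (lb x) (s.x.dg (r - c))) = 0 := by
  have hl : DMc s c (lb x) := Gau.Ad.dm (gau s 1) hx
  have hPd : ∀ᶠ k in UF, ∀ ω, (x k).l.T.μ ω ≠ 0 → PdM ((x k).g ω) := by
    filter_upwards [hx 1 one_pos] with k hk ω hω using (hk.2.2.1 ω hω).1.pdM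
  obtain ⟨K1, hK1, hT1⟩ := ad_sub hx
  obtain ⟨K2, hK2, hT2⟩ := win_phi (D := 1) h0 hc1 hl (fun k ω => (x k).g ω) hPd
    (Eventually.of_forall fun k ω ω' a a' b b' => ((x k).meas ω ω' a a' b b').1) 0 le_rfl (fun _ => 1)
    (S.Sub_const zero_le_one)
  have hT := typ_and hJ (typ_and hT1 hT2)
  have hc0 := nn_one (m + 1) 1
  have hK : S.Sub (fun k => nn (m + 1) 1 * (16 * (K1 k + K2 k * K1 k)) + 1) :=
    ((S.Sub_const (by positivity : (0 : ℝ) ≤ nn (m + 1) 1)).mul ((S.Sub_const (by norm_num : (0 : ℝ) ≤ 16)).mul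
      (hK1.add (hK2.mul hK1)))).add (S.Sub_const zero_le_one)
  apply hup_dg_zero (lb x) s.x (r - c) _ hT _ hK
  filter_upwards [hPd, hK1.1, hK2.1] with k b1 b2 b3 ω ω' hω hω' hEω hEω' hV hZ i
  have hn := (S.F k).pos
  have hd := S.dl_pos c k
  have e0 : (x k).g ω = (x k).g ω' := ((x k).meas ω ω' hω hω' hV hZ).1
  have hA := b1 ω hω
  have key : ∀ ω1 : (x k).l.T.Ω, (x k).g ω = (x k).g ω1 →
      (gau s 1).φ k ((x k).l.p.π ω1) ((x k).g ω1) ≤ K1 k →
      (∀ r, |r - s.t.v k ((x k).l.p.π ω1) 0| ≤ 1 * S.dl (c - 0) k →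
      phi (S.dl 1 k) ((x k).g ω1) (pl (s.a.v k ((x k).l.p.π ω1)) (s.x.v k ((x k).l.p.π ω1)) r) ≤
        K2 k * 2 ^ ((2 * 1 : ℕ) * 0 * (S.F k).n) * sph s 1 k ((x k).l.p.π ω1) ((x k).g ω1)) →
      qf ((x k).g ω) (Uv m (s.x.v k ((x k).l.p.π ω1))) ≤ 4 * (K1 k + K2 k * K1 k) * (S.dl c k ^ 2)⁻¹ := by
    intro ω1 g1 g2 g3
    rw [g1]
    rw [g1] at hA
    have g4 := g3 (s.t.v k ((x k).l.p.π ω1) 0 + S.dl c k) (by
      rw [add_sub_cancel_left, abs_of_pos hd, one_mul, sub_zero])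
    rw [mul_zero, zero_mul, Real.rpow_zero, mul_one] at g4
    have g5 : sph s 1 k ((x k).l.p.π ω1) ((x k).g ω1) ≤ K1 k := g2
    have g6 : K2 k * sph s 1 k ((x k).l.p.π ω1) ((x k).g ω1) ≤ K2 k * K1 k := mul_le_mul_of_nonneg_left g5 b3
    have g7 : 0 ≤ K2 k * K1 k := mul_nonneg b3 b2
    have g8 := qf_Uv hA.nonneg (s.a.v k ((x k).l.p.π ω1)) (s.x.v k ((x k).l.p.π ω1)) (s.t.v k ((x k).l.p.π ω1) 0)
      (s.t.v k ((x k).l.p.π ω1) 0 + S.dl c k) (S.dl 1 k) (K1 k + K2 k * K1 k)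
      ((show phi (S.dl 1 k) ((x k).g ω1) (pl (s.a.v k ((x k).l.p.π ω1)) (s.x.v k ((x k).l.p.π ω1))
        (s.t.v k ((x k).l.p.π ω1) 0)) ≤ K1 k from g5).trans (by linarith)) (by linarith)
    rw [add_sub_cancel_left] at g8
    rw [← div_eq_mul_inv, le_div_iff₀ (by positivity), mul_comm]
    exact g8
  have k1 := key ω rfl hEω.2.1 hEω.2.2
  have k2 := key ω' e0 hEω'.2.1 hEω'.2.2
  have k3 := vel_close hA.nonneg (2 ^ (2 * r * (S.F k).n)) _ (S.dl 1 k) (ptf s k ((x k).l.p.π ω)) hEω.1 _ _ k1 k2 i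
  -- from squares to absolute values
  set d : ℝ := |s.x.v k ((x k).l.p.π ω) i - s.x.v k ((x k).l.p.π ω') i| with hd'
  set M : ℝ := nn (m + 1) 1 * (16 * (K1 k + K2 k * K1 k)) with hM
  have g7 : 0 ≤ K2 k * K1 k := mul_nonneg b3 b2
  have hM0 : 0 ≤ M := by positivity
  have e1 : (2 : ℝ) ^ (2 * r * (S.F k).n) * (S.dl c k ^ 2) * (S.dl (r - c) k ^ 2) = 1 := by
    unfold Sp.dl
    rw [← Real.rpow_natCast (2 ^ _) 2, ← Real.rpow_natCast (2 ^ _) 2, ← Real.rpow_mul (by norm_num),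
      ← Real.rpow_mul (by norm_num), ← Real.rpow_add (by norm_num), ← Real.rpow_add (by norm_num)]
    have : 2 * r * (S.F k).n + -(c * (S.F k).n) * ((2 : ℕ) : ℝ) + -((r - c) * (S.F k).n) * ((2 : ℕ) : ℝ) = 0 := by
      push_cast; ring
    rw [this, Real.rpow_zero]
  have e2 : d ^ 2 ≤ M * S.dl (r - c) k ^ 2 := by
    have e3 : (2 : ℝ) ^ (2 * r * (S.F k).n) * d ^ 2 ≤ M * (S.dl c k ^ 2)⁻¹ := by
      rw [hd', sq_abs]
      refine k3.trans (le_of_eq ?_)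
      rw [hM]; ring
    have e4 := mul_le_mul_of_nonneg_left e3 (show 0 ≤ S.dl c k ^ 2 * S.dl (r - c) k ^ 2 by positivity)
    calc d ^ 2 = ((2 : ℝ) ^ (2 * r * (S.F k).n) * (S.dl c k ^ 2) * (S.dl (r - c) k ^ 2)) * d ^ 2 := by
          rw [e1, one_mul]
      _ = S.dl c k ^ 2 * S.dl (r - c) k ^ 2 * ((2 : ℝ) ^ (2 * r * (S.F k).n) * d ^ 2) := by ring
      _ ≤ S.dl c k ^ 2 * S.dl (r - c) k ^ 2 * (M * (S.dl c k ^ 2)⁻¹) := e4
      _ = M * S.dl (r - c) k ^ 2 := by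
          field_simp
  have hdr := S.dl_pos (r - c) k
  have e5 : d ^ 2 ≤ ((M + 1) * S.dl (r - c) k) ^ 2 := by
    refine e2.trans ?_
    rw [mul_pow]
    apply mul_le_mul_of_nonneg_right _ (sq_nonneg _)
    nlinarith
  exact (pow_le_pow_iff_left₀ (abs_nonneg _) (by positivity) two_ne_zero).mp e5

/-- what is known to a label of a window is known to the point -/
theorem le_B_of_known {c : ℝ} {l : Lab S} (hl : DMc s c l) {Y : S.L} (hY : H (up1 l Y) = 0) : Y ≤ lB s := by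
  have h1 := hl.h_B (x := Y) (y := lB s) le_rfl
  have h2 := h_le_H (up1 l Y) (up1 l (lB s))
  rw [h1, hY] at h2
  exact h_le_zero_iff.mp h2

/-- common informations of the line and of the point vanish in connected systems -/
theorem H_zero_of_conn (hi : ic s 0 = 0) {Y : S.L} (h1 : Y ≤ lA s 0) (h2 : Y ≤ lB s) : H Y = 0 := by
  have hk := kap_isKap s 0
  have e1 : up1 (kap s 0) Y = ⊥ := (IsKap_iff.mp hk).common h1 h2
  have e2 := hk.info_eq
  rw [hi, add_zero] at e2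
  have e3 := hk.dm.info_A
  have e4 : H (lA s 0) = H Y + h (lA s 0) Y := by
    have := H_chain Y (lA s 0)
    rwa [sup_eq_right.mpr h1] at this
  have e5 : H (up1 (kap s 0) (lA s 0)) = H (up1 (kap s 0) Y) + h (up1 (kap s 0) (lA s 0)) (up1 (kap s 0) Y) := by
    have := H_chain (up1 (kap s 0) Y) (up1 (kap s 0) (lA s 0))
    rwa [sup_eq_right.mpr (up1_mono _ h1)] at this
  have e6 := h_up1_le (kap s 0) (lA s 0) Y
  have e7 := H_nonneg Y
  rw [e1, H_bot] at e5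
  rw [e1] at e6
  linarith

/-- the velocity known to a label of a window is constant, in connected systems -/
theorem vel_zero (hi : ic s 0 = 0) {c u : ℝ} (hu : u ≤ 1) {l : Lab S} (hl : DMc s c l)
    (h1 : H (up1 l (s.x.dg u)) = 0) : H (s.x.dg u) = 0 :=
  H_zero_of_conn hi ((s.x_le_xi hu).trans le_sup_left) (le_B_of_known hl h1)

end

end Pool.Agent.Helper59.GR
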